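import Mathlib
import Pool.Agent.Helper74.Iso.Defs

/-!
# Orientations of surfaces in a Euclidean space, first variation and Stokes' formula
-/

namespace Pool.Agent.Helper74.Iso2

open Module InnerProductSpace MeasureTheory Pool.Agent.Helper74.Iso

variable {E : Type*} [NormedAddCommGroup E] [InnerProductSpace ℝ E] [FiniteDimensional ℝ E]

/-- An orientation of the plane `T`, given by its rotation `J` by a right angle (extended by zero to
the orthogonal complement of `T`): `J` is skew-adjoint and `J ∘ J` is minus the orthogonal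
projection onto `T`. -/
def IsRotationOf (J : E →L[ℝ] E) (T : Submodule ℝ E) : Prop :=
  (∀ u v : E, ⟪J u, v⟫_ℝ = -⟪u, J v⟫_ℝ) ∧ J ∘L J = -T.starProjection

/-- An orientation of the surface `M`: a continuous field `J` along `M` that is, at each point `x`
of `M`, the rotation by a right angle of the tangent plane at `x` for one of its orientations. -/
def IsOrientation (M : Set E) (J : E → E →L[ℝ] E) : Prop :=
  ContinuousOn J M ∧ ∀ x ∈ M, IsRotationOf (J x) (tangentPlane M x)

/-- The curl along the oriented plane with rotation `J` of a vector field whose derivative at the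
point is `A`: it equals `⟪A p, q⟫ - ⟪A q, p⟫` for a positive orthonormal basis `p, q` of the
plane. -/
noncomputable def tcurl (J A : E →L[ℝ] E) : ℝ :=
  -LinearMap.trace ℝ E ((J ∘L A : E →L[ℝ] E) : E →ₗ[ℝ] E)

variable [MeasurableSpace E] [BorelSpace E]

/-- The first variation formula of a surface `M` of mean curvature zero with boundary `B` and
outward unit conormal `η`: `∫_M div_M X = ∫_B ⟪X, η⟫` for all `C¹` vector fields `X`. -/
def FirstVariationFormula (M B : Set E) (η : E → E) : Prop :=
  ∀ X : E → E, ContDiff ℝ 1 X →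
    ∫ x in M, tdiv (tangentPlane M x) (fderiv ℝ X x) ∂μHE[2] = ∫ x in B, ⟪X x, η x⟫_ℝ ∂μHE[1]

/-- Stokes' formula on a surface `M` with orientation `J`, boundary `B` and outward unit conormal
`η`: `∫_M curl_M X = ∫_B ⟪X, J η⟫` for all `C¹` vector fields `X`. -/
def StokesFormula (M B : Set E) (J : E → E →L[ℝ] E) (η : E → E) : Prop :=
  ∀ X : E → E, ContDiff ℝ 1 X →
    ∫ x in M, tcurl (J x) (fderiv ℝ X x) ∂μHE[2] = ∫ x in B, ⟪X x, J x (η x)⟫_ℝ ∂μHE[1]

end Pool.Agent.Helper74.Iso2
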