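import Mathlib

/-!
# The polynomial certificate

The coefficient functions of the two vector fields and the six polynomial inequalities they satisfy
on the unit disc. The inequalities are proved by writing each polynomial with non-negative
coefficients in the Bernstein basis.
-/

namespace Pool.Agent.Helper74.Iso2

/-- coefficient function of the gradient part of the second field -/
noncomputable def fC (c : ℝ) : ℝ := (152 - 108 * c + 30 * c ^ 2) / 1000

/-- derivative of `fC` -/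
noncomputable def f1C (c : ℝ) : ℝ := (-108 + 60 * c) / 1000

/-- polynomial part of the radial coefficient of the first field -/
noncomputable def aP (c : ℝ) : ℝ := (230 + 274 * c) / 1000

/-- the off-plane correction -/
noncomputable def BC (c : ℝ) : ℝ := (-16 + 252 * c - 218 * c ^ 2 + 88 * c ^ 3) / 1000

/-- derivative of `BC` -/
noncomputable def B1C (c : ℝ) : ℝ := (252 - 436 * c + 264 * c ^ 2) / 1000

/-- second coefficient of the first field, as a function of `c` and `e = d ^ 2` -/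
noncomputable def bE (c e : ℝ) : ℝ :=
  c ^ 2 / 2 - 1 / 4 + fC c - c * e * f1C c + (1 - c ^ 2 - e) * BC c - aP c * c

/-- derivative of `bE` in `c` -/
noncomputable def bEc (c e : ℝ) : ℝ :=
  c + f1C c - e * (f1C c + c * (60 / 1000)) - 2 * c * BC c + (1 - c ^ 2 - e) * B1C c
    - 274 / 1000 * c - aP c

/-- derivative of `bE` in `e` -/
noncomputable def bEe (c : ℝ) : ℝ := -c * f1C c - BC c

/-- third coefficient of the first field divided by `d` -/
noncomputable def eT (c : ℝ) : ℝ := c / 2 - (1 - c ^ 2) * f1C c - aP c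

/-- derivative of `eT` -/
noncomputable def eT1 (c : ℝ) : ℝ :=
  1 / 2 + 2 * c * f1C c - (1 - c ^ 2) * (60 / 1000) - 274 / 1000

/-- `|U| ^ 2` -/
noncomputable def pF (c e k : ℝ) : ℝ :=
  ((aP c + k * c ^ 2) * c + bE c e) ^ 2 + e * ((aP c + k * c ^ 2) + eT c) ^ 2
    + (1 - c ^ 2 - e) * (aP c + k * c ^ 2) ^ 2

/-- `|V| ^ 2` -/
noncomputable def wF (c e : ℝ) : ℝ :=
  e * (c * (1 / 2 - c * f1C c) + f1C c) ^ 2 + (e * (1 / 2 - c * f1C c) + fC c - 1 / 4) ^ 2
    + (1 - c ^ 2 - e) * e * (1 / 2 - c * f1C c) ^ 2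

/-- `⟪U, V⟫ / d` -/
noncomputable def qF (c e k : ℝ) : ℝ :=
  ((aP c + k * c ^ 2) * c + bE c e) * (c * (1 / 2 - c * f1C c) + f1C c)
    + ((aP c + k * c ^ 2) + eT c) * (e * (1 / 2 - c * f1C c) + fC c - 1 / 4)
    + (1 - c ^ 2 - e) * (aP c + k * c ^ 2) * (1 / 2 - c * f1C c)

/-- the matrix entries -/
noncomputable def P11 (c k : ℝ) : ℝ := aP c + k * c ^ 2 + c * (274 / 1000 + 2 * k * c)

/-- matrix entry -/
noncomputable def P22 (c e : ℝ) : ℝ := -bEc c e

/-- matrix entry -/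
noncomputable def P33 (c : ℝ) : ℝ := -eT c

/-- matrix entry -/
noncomputable def P12 (c e k : ℝ) : ℝ :=
  (-(274 / 1000 + 2 * k * c) + c * bEc c e + 2 * e * bEe c) / 2

/-- matrix entry divided by `d` -/
noncomputable def P13 (c : ℝ) : ℝ := (c * eT1 c + eT c) / 2

/-- matrix entry divided by `d` -/
noncomputable def P23 (c : ℝ) : ℝ := (-2 * bEe c - eT1 c) / 2

/-- second principal minor -/
noncomputable def M2 (c e k : ℝ) : ℝ := P11 c k * P22 c e - P12 c e k ^ 2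

/-- determinant -/
noncomputable def M3 (c e k : ℝ) : ℝ :=
  P11 c k * P22 c e * P33 c + 2 * e * P12 c e k * P13 c * P23 c - e * P11 c k * P23 c ^ 2
    - e * P22 c e * P13 c ^ 2 - P33 c * P12 c e k ^ 2

/-- the trace condition -/
noncomputable def bii (c e k : ℝ) : ℝ :=
  aP c + k * c ^ 2 + (1 - c ^ 2) * bEc c e + (1 - e) * eT c - c * e * (2 * bEe c + eT1 c)

/-- the nuclear norm condition -/
noncomputable def SF (c e k : ℝ) : ℝ :=
  1 + 16 * (pF c e k - wF c e) ^ 2 + 64 * e * qF c e k ^ 2 - 8 * (pF c e k + wF c e)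

lemma S_pos {x s : ℝ} (hx0 : 0 ≤ x) (hx1 : x ≤ 1) (hs0 : 0 ≤ s) (hs1 : s ≤ 1) :
    0 ≤ SF x ((1 - x ^ 2) * s) 0 := by
  obtain ⟨y, hy⟩ : ∃ y, y = 1 - x := ⟨_, rfl⟩
  obtain ⟨t, ht⟩ : ∃ t, t = 1 - s := ⟨_, rfl⟩
  have hy0 : 0 ≤ y := by linarith
  have ht0 : 0 ≤ t := by linarith
  have key : SF x ((1 - x ^ 2) * s) 0 =
      ((1744924329/3906250000)*y^20 + (795778651/97656250)*x*y^19 + (137065397953/1953125000)*x^2*y^18 + (370052566763/976562500)*x^3*y^17 + (224540392937/156250000)*x^4*y^16 + (1984253481253/488281250)*x^5*y^15 + (8671969530143/976562500)*x^6*y^14 + (7487927608023/488281250)*x^7*y^13 + (5182224785251/244140625)*x^8*y^12 + (23186376060917/976562500)*x^9*y^11 + (21031638011193/976562500)*x^10*y^10 + (3864478977283/244140625)*x^11*y^9 + (4578906101441/488281250)*x^12*y^8 + (1081798224281/244140625)*x^13*y^7 + (1601738216921/976562500)*x^14*y^6 + (22542487507/48828125)*x^15*y^5 + (22926553982/244140625)*x^16*y^4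 + (122565388/9765625)*x^17*y^3 + (217294244/244140625)*x^18*y^2 + (28512/1953125)*x^19*y)*t^4 +
      ((520673081/390625000)*y^20 + (6055469358/244140625)*x*y^19 + (213112527071/976562500)*x^2*y^18 + (588644543197/488281250)*x^3*y^17 + (2286528702857/488281250)*x^4*y^16 + (13255973379039/976562500)*x^5*y^15 + (29701396248827/976562500)*x^6*y^14 + (13143877212698/244140625)*x^7*y^13 + (149036553854103/1953125000)*x^8*y^12 + (1704127122807/19531250)*x^9*y^11 + (39410278017897/488281250)*x^10*y^10 + (29454527631109/488281250)*x^11*y^9 + (1768519083963/48828125)*x^12*y^8 + (16875896469267/976562500)*x^13*y^7 + (1570434364149/244140625)*x^14*y^6 + (442405699131/244140625)*x^15*y^5 + (89523836254/244140625)*x^16*y^4 + (11793853992/244140625)*x^17*y^3 + (806684488/244140625)*x^18*y^2 + (85536/1953125)*x^19*y)*s*t^3 +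
      ((4201657577/3906250000)*y^20 + (10196873019/488281250)*x*y^19 + (374133951009/1953125000)*x^2*y^18 + (1075716919883/976562500)*x^3*y^17 + (17362563567807/3906250000)*x^4*y^16 + (13039453622817/976562500)*x^5*y^15 + (3020013682863/97656250)*x^6*y^14 + (27554926605943/488281250)*x^7*y^13 + (321201634724199/3906250000)*x^8*y^12 + (23531868198087/244140625)*x^9*y^11 + (35605511612353/390625000)*x^10*y^10 + (67822660832459/976562500)*x^11*y^9 + (165610778194593/3906250000)*x^12*y^8 + (20029627449869/976562500)*x^13*y^7 + (1507669465907/195312500)*x^14*y^6 + (535110742079/244140625)*x^15*y^5 + (108717855303/244140625)*x^16*y^4 + (14294438792/244140625)*x^17*y^3 + (961486244/244140625)*x^18*y^2 + (85536/1953125)*x^19*y)*s^2*t^2 +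
      ((739847/3906250)*y^20 + (8259343/1953125)*x*y^19 + (169948477/3906250)*x^2*y^18 + (107391951/390625)*x^3*y^17 + (4683846371/3906250)*x^4*y^16 + (7503993167/1953125)*x^5*y^15 + (36682881157/3906250)*x^6*y^14 + (35020278219/1953125)*x^7*y^13 + (106043102769/3906250)*x^8*y^12 + (64213953649/1953125)*x^9*y^11 + (24979339939/781250)*x^10*y^10 + (48741735449/1953125)*x^11*y^9 + (60758657673/3906250)*x^12*y^8 + (2992273937/390625)*x^13*y^7 + (11433036751/3906250)*x^14*y^6 + (1643296529/1953125)*x^15*y^5 + (336958926/1953125)*x^16*y^4 + (44517756/1953125)*x^17*y^3 + (2976768/1953125)*x^18*y^2 + (28512/1953125)*x^19*y)*s^3*t := by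
    rw [hy, ht]
    simp only [SF, pF, wF, qF, bE, eT, fC, f1C, aP, BC]
    ring
  rw [key]
  positivity

lemma A1_pos {x s : ℝ} (hx0 : 0 ≤ x) (hx1 : x ≤ 1) (hs0 : 0 ≤ s) (hs1 : s ≤ 1) :
    0 ≤ 1 / 4 - pF x ((1 - x ^ 2) * s) 0 - wF x ((1 - x ^ 2) * s) := by
  obtain ⟨y, hy⟩ : ∃ y, y = 1 - x := ⟨_, rfl⟩
  obtain ⟨t, ht⟩ : ∃ t, t = 1 - s := ⟨_, rfl⟩
  have hy0 : 0 ≤ y := by linarith
  have ht0 : 0 ≤ t := by linarith
  have key : 1 / 4 - pF x ((1 - x ^ 2) * s) 0 - wF x ((1 - x ^ 2) * s) =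
      ((349/2000)*y^10 + (50957/31250)*x*y^9 + (1712301/250000)*x^2*y^8 + (2128979/125000)*x^3*y^7 + (3479507/125000)*x^4*y^6 + (157217/5000)*x^5*y^5 + (3126883/125000)*x^6*y^4 + (1735687/125000)*x^7*y^3 + (12809/2500)*x^8*y^2 + (35277/31250)*x^9*y + (1782/15625)*x^10)*t^2 +
      ((11511/50000)*y^10 + (138071/62500)*x*y^9 + (2413679/250000)*x^2*y^8 + (3160587/125000)*x^3*y^7 + (10964473/250000)*x^4*y^6 + (3290681/62500)*x^5*y^5 + (11074809/250000)*x^6*y^4 + (3217633/125000)*x^7*y^3 + (615147/62500)*x^8*y^2 + (13917/6250)*x^9*y + (3564/15625)*x^10)*s*t +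
      ((6933/125000)*y^10 + (7257/12500)*x*y^9 + (351273/125000)*x^2*y^8 + (128514/15625)*x^3*y^7 + (1990257/125000)*x^4*y^6 + (1316937/62500)*x^5*y^5 + (479283/25000)*x^6*y^4 + (368877/31250)*x^7*y^3 + (294081/62500)*x^8*y^2 + (17154/15625)*x^9*y + (1782/15625)*x^10)*s^2 := by
    rw [hy, ht]
    simp only [pF, wF, bE, eT, fC, f1C, aP, BC]
    ring
  rw [key]
  positivity

lemma M2_pos {x s : ℝ} (hx0 : 0 ≤ x) (hx1 : x ≤ 1) (hs0 : 0 ≤ s) (hs1 : s ≤ 1) :
    0 ≤ M2 x ((1 - x ^ 2) * s) 0 - 1 / 2000 := by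
  obtain ⟨y, hy⟩ : ∃ y, y = 1 - x := ⟨_, rfl⟩
  obtain ⟨t, ht⟩ : ∃ t, t = 1 - s := ⟨_, rfl⟩
  have hy0 : 0 ≤ y := by linarith
  have ht0 : 0 ≤ t := by linarith
  have key : M2 x ((1 - x ^ 2) * s) 0 - 1 / 2000 =
      ((511/1000000)*y^10 + (244/15625)*x*y^9 + (23059/125000)*x^2*y^8 + (30663/31250)*x^3*y^7 + (1313233/500000)*x^4*y^6 + (486219/125000)*x^5*y^5 + (100471/31250)*x^6*y^4 + (45869/31250)*x^7*y^3 + (294687/1000000)*x^8*y^2 + (2493/125000)*x^9*y + (591/125000)*x^10)*t^2 +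
      ((19263/500000)*y^10 + (44337/125000)*x*y^9 + (47149/31250)*x^2*y^8 + (516393/125000)*x^3*y^7 + (1921719/250000)*x^4*y^6 + (239919/25000)*x^5*y^5 + (481223/62500)*x^6*y^4 + (466327/125000)*x^7*y^3 + (494083/500000)*x^8*y^2 + (1846/15625)*x^9*y + (591/62500)*x^10)*s*t +
      ((37759/1000000)*y^10 + (42929/125000)*x*y^9 + (164841/125000)*x^2*y^8 + (76193/25000)*x^3*y^7 + (483857/100000)*x^4*y^6 + (85258/15625)*x^5*y^5 + (266177/62500)*x^6*y^4 + (270371/125000)*x^7*y^3 + (130043/200000)*x^8*y^2 + (491/5000)*x^9*y + (591/125000)*x^10)*s^2 := by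
    rw [hy, ht]
    simp only [M2, P11, P22, P12, bEc, bEe, f1C, aP, BC, B1C]
    ring
  rw [key]
  positivity

lemma M3_pos {x s : ℝ} (hx0 : 0 ≤ x) (hx1 : x ≤ 1) (hs0 : 0 ≤ s) (hs1 : s ≤ 1) :
    0 ≤ M3 x ((1 - x ^ 2) * s) 0 := by
  obtain ⟨y, hy⟩ : ∃ y, y = 1 - x := ⟨_, rfl⟩
  obtain ⟨t, ht⟩ : ∃ t, t = 1 - s := ⟨_, rfl⟩
  have hy0 : 0 ≤ y := by linarith
  have ht0 : 0 ≤ t := by linarith
  have key : M3 x ((1 - x ^ 2) * s) 0 =
      ((61671/500000000)*y^13 + (339669/125000000)*x*y^12 + (14758673/500000000)*x^2*y^11 + (42838567/250000000)*x^3*y^10 + (28547727/50000000)*x^4*y^9 + (74055969/62500000)*x^5*y^8 + (80011611/50000000)*x^6*y^7 + (178946203/125000000)*x^7*y^6 + (415885823/500000000)*x^8*y^5 + (37088699/125000000)*x^9*y^4 + (28389201/500000000)*x^10*y^3 + (1464099/250000000)*x^11*y^2 + (105269/125000000)*x^12*y + (1307/62500000)*x^13)*t^2 +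
      ((2373/4000000)*y^13 + (866643/62500000)*x*y^12 + (58278157/500000000)*x^2*y^11 + (135293133/250000000)*x^3*y^10 + (387911023/250000000)*x^4*y^9 + (366212521/125000000)*x^5*y^8 + (943235667/250000000)*x^6*y^7 + (209640477/62500000)*x^7*y^6 + (1011709553/500000000)*x^8*y^5 + (19880397/25000000)*x^9*y^4 + (18735097/100000000)*x^10*y^3 + (248031/10000000)*x^11*y^2 + (59207/31250000)*x^12*y + (1307/31250000)*x^13)*s*t +
      ((961/10000000)*y^13 + (1910169/250000000)*x*y^12 + (9055059/125000000)*x^2*y^11 + (20721901/62500000)*x^3*y^10 + (56797297/62500000)*x^4*y^9 + (205823577/125000000)*x^5*y^8 + (12955353/6250000)*x^6*y^7 + (115242499/62500000)*x^7*y^6 + (286697693/250000000)*x^8*y^5 + (119867121/250000000)*x^9*y^4 + (15604501/125000000)*x^10*y^3 + (552499/31250000)*x^11*y^2 + (131559/125000000)*x^12*y + (1307/62500000)*x^13)*s^2 := by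
    rw [hy, ht]
    simp only [M3, P11, P22, P33, P12, P13, P23, bEc, bEe, eT, eT1, f1C, aP, BC, B1C]
    ring
  rw [key]
  positivity

lemma bii_pos0 {u s : ℝ} (hu0 : 0 ≤ u) (hu1 : u ≤ 1) (_hs0 : 0 ≤ s) (hs1 : s ≤ 1) :
    0 ≤ bii (u / 2) ((1 - (u / 2) ^ 2) * s) 0 - (u / 2) / 2 := by
  obtain ⟨y, hy⟩ : ∃ y, y = 1 - u := ⟨_, rfl⟩
  obtain ⟨t, ht⟩ : ∃ t, t = 1 - s := ⟨_, rfl⟩
  have hy0 : 0 ≤ y := by linarith
  have ht0 : 0 ≤ t := by linarith
  have key : bii (u / 2) ((1 - (u / 2) ^ 2) * s) 0 - (u / 2) / 2 =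
      ((11/500)*y^6 + (39/250)*u*y^5 + (643/2000)*u^2*y^4 + (269/1000)*u^3*y^3 + (89/800)*u^4*y^2 + (21/800)*u^5*y + (27/8000)*u^6)*t := by
    rw [hy, ht]
    simp only [bii, bEc, bEe, eT, eT1, f1C, aP, BC, B1C]
    ring
  rw [key]
  positivity

lemma bii_pos1 {u s : ℝ} (hu0 : 0 ≤ u) (hu1 : u ≤ 1) (_hs0 : 0 ≤ s) (hs1 : s ≤ 1) :
    0 ≤ bii (1 / 2 + u / 2) ((1 - (1 / 2 + u / 2) ^ 2) * s) 0 - (1 / 2 + u / 2) / 2 := by
  obtain ⟨y, hy⟩ : ∃ y, y = 1 - u := ⟨_, rfl⟩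
  obtain ⟨t, ht⟩ : ∃ t, t = 1 - s := ⟨_, rfl⟩
  have hy0 : 0 ≤ y := by linarith
  have ht0 : 0 ≤ t := by linarith
  have key : bii (1 / 2 + u / 2) ((1 - (1 / 2 + u / 2) ^ 2) * s) 0 - (1 / 2 + u / 2) / 2 =
      ((27/8000)*y^6 + (57/4000)*u*y^5 + (41/800)*u^2*y^4 + (111/1000)*u^3*y^3 + (7/80)*u^4*y^2 + (1/100)*u^5*y)*t := by
    rw [hy, ht]
    simp only [bii, bEc, bEe, eT, eT1, f1C, aP, BC, B1C]
    ring
  rw [key]
  positivity

lemma S_neg {x s : ℝ} (hx0 : 0 ≤ x) (hx1 : x ≤ 1) (hs0 : 0 ≤ s) (hs1 : s ≤ 1) :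
    0 ≤ SF (-x) ((1 - x ^ 2) * s) (850 / 1000) := by
  obtain ⟨y, hy⟩ : ∃ y, y = 1 - x := ⟨_, rfl⟩
  obtain ⟨t, ht⟩ : ∃ t, t = 1 - s := ⟨_, rfl⟩
  have hy0 : 0 ≤ y := by linarith
  have ht0 : 0 ≤ t := by linarith
  have key : SF (-x) ((1 - x ^ 2) * s) (850 / 1000) =
      ((1744924329/3906250000)*y^20 + (474572839/48828125)*x*y^19 + (190611128963/1953125000)*x^2*y^18 + (590588719671/976562500)*x^3*y^17 + (10165690244079/3906250000)*x^4*y^16 + (4041296189641/488281250)*x^5*y^15 + (19699691733663/976562500)*x^6*y^14 + (18793976797221/488281250)*x^7*y^13 + (227120372936569/3906250000)*x^8*y^12 + (68145443079929/976562500)*x^9*y^11 + (129566426017321/1953125000)*x^10*y^10 + (9671674925587/195312500)*x^11*y^9 + (111959393244169/3906250000)*x^12*y^8 + (12443968232877/976562500)*x^13*y^7 + (2157521420517/488281250)*x^14*y^6 + (62978544921/48828125)*x^15*y^5 + (1353682311799/3906250000)*x^16*y^4 + (3002181387/39062500)*x^17*y^3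 + (21607895857/1953125000)*x^18*y^2 + (12738931/7812500)*x^19*y + (90321/250000)*x^20)*t^4 +
      ((520673081/390625000)*y^20 + (6961357667/244140625)*x*y^19 + (55237115771/195312500)*x^2*y^18 + (1699923835299/976562500)*x^3*y^17 + (14626432739487/1953125000)*x^4*y^16 + (23423510707019/976562500)*x^5*y^15 + (11589429782941/195312500)*x^6*y^14 + (28279838846361/244140625)*x^7*y^13 + (176148277002959/976562500)*x^8*y^12 + (219354280403837/976562500)*x^9*y^11 + (43463563081741/195312500)*x^10*y^10 + (42250417805274/244140625)*x^11*y^9 + (201494885645729/1953125000)*x^12*y^8 + (44330352902339/976562500)*x^13*y^7 + (6806475542899/488281250)*x^14*y^6 + (2767328031989/976562500)*x^15*y^5 + (925572121879/1953125000)*x^16*y^4 + (144527771863/976562500)*x^17*y^3 + (51813911407/976562500)*x^18*y^2 + (46217659/3906250)*x^19*y + (90321/62500)*x^20)*s*t^3 +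
      ((4201657577/3906250000)*y^20 + (5405707433/244140625)*x*y^19 + (411945828731/1953125000)*x^2*y^18 + (1219358502397/976562500)*x^3*y^17 + (20282709894621/3906250000)*x^4*y^16 + (15823242699119/976562500)*x^5*y^15 + (38507656645407/976562500)*x^6*y^14 + (18668904926428/244140625)*x^7*y^13 + (465918669792733/3906250000)*x^8*y^12 + (36515954198057/244140625)*x^9*y^11 + (291692792185759/1953125000)*x^10*y^10 + (5685265969741/48828125)*x^11*y^9 + (267784121545913/3906250000)*x^12*y^8 + (7043981079014/244140625)*x^13*y^7 + (1947359801781/244140625)*x^14*y^6 + (1423924302671/976562500)*x^15*y^5 + (191431814763/390625000)*x^16*y^4 + (320736285313/976562500)*x^17*y^3 + (31771714054/244140625)*x^18*y^2 + (50218092/1953125)*x^19*y + (270963/125000)*x^20)*s^2*t^2 +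
      ((739847/3906250)*y^20 + (6537597/1953125)*x*y^19 + (50182942/1953125)*x^2*y^18 + (4459024509/39062500)*x^3*y^17 + (25742652429/78125000)*x^4*y^16 + (12961682771/19531250)*x^5*y^15 + (1594711563/1562500)*x^6*y^14 + (56045567547/39062500)*x^7*y^13 + (35015228969/15625000)*x^8*y^12 + (142781972677/39062500)*x^9*y^11 + (201516054163/39062500)*x^10*y^10 + (227756854989/39062500)*x^11*y^9 + (422188656769/78125000)*x^12*y^8 + (43315919752/9765625)*x^13*y^7 + (26669571129/7812500)*x^14*y^6 + (92378244001/39062500)*x^15*y^5 + (103464104263/78125000)*x^16*y^4 + (843858561/1562500)*x^17*y^3 + (5677910797/39062500)*x^18*y^2 + (87697253/3906250)*x^19*y + (90321/62500)*x^20)*s^3*t +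
      ((117861/78125)*x^3*y^17 + (36967503/1562500)*x^4*y^16 + (66868752/390625)*x^5*y^15 + (594900499/781250)*x^6*y^14 + (3654438949/1562500)*x^7*y^13 + (32996921409/6250000)*x^8*y^12 + (3556500929/390625)*x^9*y^11 + (38501995607/3125000)*x^10*y^10 + (20860001691/1562500)*x^11*y^9 + (73564657107/6250000)*x^12*y^8 + (3335333598/390625)*x^13*y^7 + (7986660843/1562500)*x^14*y^6 + (3903895283/1562500)*x^15*y^5 + (6053631847/6250000)*x^16*y^4 + (110459421/390625)*x^17*y^3 + (178786807/3125000)*x^18*y^2 + (2168741/312500)*x^19*y + (90321/250000)*x^20)*s^4 := by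
    rw [hy, ht]
    simp only [SF, pF, wF, qF, bE, eT, fC, f1C, aP, BC]
    ring
  rw [key]
  positivity

lemma A1_neg {x s : ℝ} (hx0 : 0 ≤ x) (hx1 : x ≤ 1) (hs0 : 0 ≤ s) (hs1 : s ≤ 1) :
    0 ≤ 1 / 4 - pF (-x) ((1 - x ^ 2) * s) (850 / 1000) - wF (-x) ((1 - x ^ 2) * s) := by
  obtain ⟨y, hy⟩ : ∃ y, y = 1 - x := ⟨_, rfl⟩
  obtain ⟨t, ht⟩ : ∃ t, t = 1 - s := ⟨_, rfl⟩
  have hy0 : 0 ≤ y := by linarith
  have ht0 : 0 ≤ t := by linarith
  have key : 1 / 4 - pF (-x) ((1 - x ^ 2) * s) (850 / 1000) - wF (-x) ((1 - x ^ 2) * s) =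
      ((349/2000)*y^10 + (116211/62500)*x*y^9 + (2129243/250000)*x^2*y^8 + (2801197/125000)*x^3*y^7 + (9355407/250000)*x^4*y^6 + (5079849/125000)*x^5*y^5 + (6946819/250000)*x^6*y^4 + (27007/2500)*x^7*y^3 + (508093/250000)*x^8*y^2 + (47781/125000)*x^9*y + (1523/10000)*x^10)*t^2 +
      ((11511/50000)*y^10 + (37426/15625)*x*y^9 + (2688817/250000)*x^2*y^8 + (442859/15625)*x^3*y^7 + (12288387/250000)*x^4*y^6 + (7289627/125000)*x^5*y^5 + (11731771/250000)*x^6*y^4 + (613957/25000)*x^7*y^3 + (125186/15625)*x^8*y^2 + (27642/15625)*x^9*y + (1523/5000)*x^10)*s*t +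
      ((6933/125000)*y^10 + (6609/12500)*x*y^9 + (270003/125000)*x^2*y^8 + (686931/125000)*x^3*y^7 + (515527/50000)*x^4*y^6 + (1858323/125000)*x^5*y^5 + (157707/10000)*x^6*y^4 + (1436453/125000)*x^7*y^3 + (1330047/250000)*x^8*y^2 + (34671/25000)*x^9*y + (1523/10000)*x^10)*s^2 := by
    rw [hy, ht]
    simp only [pF, wF, bE, eT, fC, f1C, aP, BC]
    ring
  rw [key]
  positivity

lemma M2_neg {x s : ℝ} (hx0 : 0 ≤ x) (hx1 : x ≤ 1) (hs0 : 0 ≤ s) (hs1 : s ≤ 1) :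
    0 ≤ M2 (-x) ((1 - x ^ 2) * s) (850 / 1000) - 1 / 2000 := by
  obtain ⟨y, hy⟩ : ∃ y, y = 1 - x := ⟨_, rfl⟩
  obtain ⟨t, ht⟩ : ∃ t, t = 1 - s := ⟨_, rfl⟩
  have hy0 : 0 ≤ y := by linarith
  have ht0 : 0 ≤ t := by linarith
  have key : M2 (-x) ((1 - x ^ 2) * s) (850 / 1000) - 1 / 2000 =
      ((511/1000000)*y^10 + (14219/62500)*x*y^9 + (378791/250000)*x^2*y^8 + (65153/15625)*x^3*y^7 + (3161057/500000)*x^4*y^6 + (7917/1000)*x^5*y^5 + (69071/5000)*x^6*y^4 + (692133/31250)*x^7*y^3 + (20907711/1000000)*x^8*y^2 + (241841/25000)*x^9*y + (382023/250000)*x^10)*t^2 +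
      ((19263/500000)*y^10 + (106803/125000)*x*y^9 + (121343/25000)*x^2*y^8 + (164371/12500)*x^3*y^7 + (5276781/250000)*x^4*y^6 + (3291681/125000)*x^5*y^5 + (558499/15625)*x^6*y^4 + (715187/15625)*x^7*y^3 + (19314991/500000)*x^8*y^2 + (1082497/62500)*x^9*y + (382023/125000)*x^10)*s*t +
      ((37759/1000000)*y^10 + (77181/125000)*x*y^9 + (802143/250000)*x^2*y^8 + (101507/12500)*x^3*y^7 + (5792881/500000)*x^4*y^6 + (175904/15625)*x^5*y^5 + (1536601/125000)*x^6*y^4 + (511681/31250)*x^7*y^3 + (614519/40000)*x^8*y^2 + (955789/125000)*x^9*y + (382023/250000)*x^10)*s^2 := by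
    rw [hy, ht]
    simp only [M2, P11, P22, P12, bEc, bEe, f1C, aP, BC, B1C]
    ring
  rw [key]
  positivity

lemma M3_neg {x s : ℝ} (hx0 : 0 ≤ x) (hx1 : x ≤ 1) (hs0 : 0 ≤ s) (hs1 : s ≤ 1) :
    0 ≤ M3 (-x) ((1 - x ^ 2) * s) (850 / 1000) := by
  obtain ⟨y, hy⟩ : ∃ y, y = 1 - x := ⟨_, rfl⟩
  obtain ⟨t, ht⟩ : ∃ t, t = 1 - s := ⟨_, rfl⟩
  have hy0 : 0 ≤ y := by linarith
  have ht0 : 0 ≤ t := by linarith
  have key : M3 (-x) ((1 - x ^ 2) * s) (850 / 1000) =
      ((61671/500000000)*y^13 + (1445167/50000000)*x*y^12 + (156051001/500000000)*x^2*y^11 + (190241389/125000000)*x^3*y^10 + (218986813/50000000)*x^4*y^9 + (1063857223/125000000)*x^5*y^8 + (3271514359/250000000)*x^6*y^7 + (610245113/31250000)*x^7*y^6 + (14627380567/500000000)*x^8*y^5 + (9140668967/250000000)*x^9*y^4 + (16166119753/500000000)*x^10*y^3 + (18158371/1000000)*x^11*y^2 + (176422031/31250000)*x^12*y + (5445609/7812500)*x^13)*t^2 +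
      ((2373/4000000)*y^13 + (4083357/62500000)*x*y^12 + (173858363/250000000)*x^2*y^11 + (1713186297/500000000)*x^3*y^10 + (1249149069/125000000)*x^4*y^9 + (1198680653/62500000)*x^5*y^8 + (3324642957/125000000)*x^6*y^7 + (7876393729/250000000)*x^7*y^6 + (19400237129/500000000)*x^8*y^5 + (2938103769/62500000)*x^9*y^4 + (11092633359/250000000)*x^10*y^3 + (13745918317/500000000)*x^11*y^2 + (2404755077/250000000)*x^12*y + (5445609/3906250)*x^13)*s*t +
      ((961/10000000)*y^13 + (3777453/125000000)*x*y^12 + (168151549/500000000)*x^2*y^11 + (846225177/500000000)*x^3*y^10 + (1248346353/250000000)*x^4*y^9 + (237004169/25000000)*x^5*y^8 + (3035423167/250000000)*x^6*y^7 + (571700887/50000000)*x^7*y^6 + (2620164261/250000000)*x^8*y^5 + (75985191/6250000)*x^9*y^4 + (6610826893/500000000)*x^10*y^3 + (4827890217/500000000)*x^11*y^2 + (993378829/250000000)*x^12*y + (5445609/7812500)*x^13)*s^2 := by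
    rw [hy, ht]
    simp only [M3, P11, P22, P33, P12, P13, P23, bEc, bEe, eT, eT1, f1C, aP, BC, B1C]
    ring
  rw [key]
  positivity

lemma bii_neg0 {u s : ℝ} (hu0 : 0 ≤ u) (hu1 : u ≤ 1) (hs0 : 0 ≤ s) (hs1 : s ≤ 1) :
    0 ≤ bii (-(u / 2)) ((1 - (u / 2) ^ 2) * s) (850 / 1000) - (-(u / 2)) / 2 := by
  obtain ⟨y, hy⟩ : ∃ y, y = 1 - u := ⟨_, rfl⟩
  obtain ⟨t, ht⟩ : ∃ t, t = 1 - s := ⟨_, rfl⟩
  have hy0 : 0 ≤ y := by linarith
  have ht0 : 0 ≤ t := by linarith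
  have key : bii (-(u / 2)) ((1 - (u / 2) ^ 2) * s) (850 / 1000) - (-(u / 2)) / 2 =
      ((11/500)*y^6 + (27/250)*u*y^5 + (147/500)*u^2*y^4 + (433/1000)*u^3*y^3 + (1153/4000)*u^4*y^2 + (291/4000)*u^5*y + (131/8000)*u^6)*t +
      ((17/80)*u^2*y^4 + (17/20)*u^3*y^3 + (51/40)*u^4*y^2 + (17/20)*u^5*y + (17/80)*u^6)*s := by
    rw [hy, ht]
    simp only [bii, bEc, bEe, eT, eT1, f1C, aP, BC, B1C]
    ring
  rw [key]
  positivity

lemma bii_neg1 {u s : ℝ} (hu0 : 0 ≤ u) (hu1 : u ≤ 1) (hs0 : 0 ≤ s) (hs1 : s ≤ 1) :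
    0 ≤ bii (-(1 / 2 + u / 2)) ((1 - (1 / 2 + u / 2) ^ 2) * s) (850 / 1000) - (-(1 / 2 + u / 2)) / 2 := by
  obtain ⟨y, hy⟩ : ∃ y, y = 1 - u := ⟨_, rfl⟩
  obtain ⟨t, ht⟩ : ∃ t, t = 1 - s := ⟨_, rfl⟩
  have hy0 : 0 ≤ y := by linarith
  have ht0 : 0 ≤ t := by linarith
  have key : bii (-(1 / 2 + u / 2)) ((1 - (1 / 2 + u / 2) ^ 2) * s) (850 / 1000) - (-(1 / 2 + u / 2)) / 2 =
      ((131/8000)*y^6 + (99/800)*u*y^5 + (2173/4000)*u^2*y^4 + (1583/1000)*u^3*y^3 + (681/250)*u^4*y^2 + (121/50)*u^5*y + (17/20)*u^6)*t +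
      ((17/80)*y^6 + (17/10)*u*y^5 + (221/40)*u^2*y^4 + (187/20)*u^3*y^3 + (697/80)*u^4*y^2 + (17/4)*u^5*y + (17/20)*u^6)*s := by
    rw [hy, ht]
    simp only [bii, bEc, bEe, eT, eT1, f1C, aP, BC, B1C]
    ring
  rw [key]
  positivity

/-- the switch of the extra term of the radial coefficient -/
noncomputable def kC (c : ℝ) : ℝ := if 0 ≤ c then 0 else 850 / 1000

lemma exists_s {x e : ℝ} (hx0 : 0 ≤ x) (hx1 : x ≤ 1) (he : 0 ≤ e) (h : x ^ 2 + e ≤ 1) :
    ∃ s, 0 ≤ s ∧ s ≤ 1 ∧ e = (1 - x ^ 2) * s := by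
  rcases eq_or_lt_of_le hx1 with hx | hx
  · refine ⟨0, le_rfl, zero_le_one, ?_⟩
    subst hx
    linarith
  · have h1 : 0 < 1 - x ^ 2 := by nlinarith
    refine ⟨e / (1 - x ^ 2), by positivity, ?_, ?_⟩
    · rw [div_le_one h1]; linarith
    · field_simp

theorem cert {c e : ℝ} (he : 0 ≤ e) (h : c ^ 2 + e ≤ 1) :
    0 ≤ SF c e (kC c) ∧ pF c e (kC c) + wF c e ≤ 1 / 4 ∧ 0 < P11 c (kC c) ∧
      0 < M2 c e (kC c) ∧ 0 ≤ M3 c e (kC c) ∧ c / 2 ≤ bii c e (kC c) := by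
  have hc1 : c ≤ 1 := by nlinarith
  have hc2 : -1 ≤ c := by nlinarith
  unfold kC
  split_ifs with h0
  · obtain ⟨s, hs0, hs1, hes⟩ := exists_s h0 hc1 he h
    subst hes
    refine ⟨S_pos h0 hc1 hs0 hs1, by linarith [A1_pos h0 hc1 hs0 hs1], ?_,
      by linarith [M2_pos h0 hc1 hs0 hs1], M3_pos h0 hc1 hs0 hs1, ?_⟩
    · simp only [P11, aP]; nlinarith
    · rcases le_total c (1 / 2) with hc | hc
      · have := bii_pos0 (u := 2 * c) (s := s) (by linarith) (by linarith) hs0 hs1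
        rw [show 2 * c / 2 = c by ring] at this
        linarith
      · have := bii_pos1 (u := 2 * c - 1) (s := s) (by linarith) (by linarith) hs0 hs1
        rw [show 1 / 2 + (2 * c - 1) / 2 = c by ring] at this
        linarith
  · push Not at h0
    obtain ⟨x, hx⟩ : ∃ x, x = -c := ⟨_, rfl⟩
    have hcx : c = -x := by linarith
    subst hcx
    have hx0 : 0 ≤ x := by linarith
    have hx1 : x ≤ 1 := by linarith
    obtain ⟨s, hs0, hs1, hes⟩ := exists_s hx0 hx1 he (by nlinarith)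
    subst hes
    refine ⟨S_neg hx0 hx1 hs0 hs1, by linarith [A1_neg hx0 hx1 hs0 hs1], ?_,
      by linarith [M2_neg hx0 hx1 hs0 hs1], M3_neg hx0 hx1 hs0 hs1, ?_⟩
    · simp only [P11, aP]; nlinarith [sq_nonneg (x - 1 / 10)]
    · rcases le_total x (1 / 2) with hc | hc
      · have := bii_neg0 (u := 2 * x) (s := s) (by linarith) (by linarith) hs0 hs1
        rw [show 2 * x / 2 = x by ring] at this
        linarith
      · have := bii_neg1 (u := 2 * x - 1) (s := s) (by linarith) (by linarith) hs0 hs1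
        rw [show 1 / 2 + (2 * x - 1) / 2 = x by ring] at this
        linarith

end Pool.Agent.Helper74.Iso2
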