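import Mathlib

/-!
# Two facts on pairs of vectors

* `nuc`: a bound for `⟪u, e₁⟫ + ⟪v, e₂⟫` over orthonormal pairs `e₁, e₂` (nuclear norm of `(u, v)`).
* `psd`: the trace over a plane of a positive semidefinite form is at most its full trace.
-/

namespace Pool.Agent.Helper74.Iso2

open RealInnerProductSpace InnerProductSpace

variable {E : Type*} [NormedAddCommGroup E] [InnerProductSpace ℝ E]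

/-- the Gram determinant does not increase under projection to a plane -/
lemma gram_ge {e₁ e₂ u v : E} (h11 : ⟪e₁, e₁⟫ = 1) (h22 : ⟪e₂, e₂⟫ = 1) (h12 : ⟪e₁, e₂⟫ = 0) :
    (⟪u, e₁⟫ * ⟪v, e₂⟫ - ⟪u, e₂⟫ * ⟪v, e₁⟫) ^ 2 ≤ ⟪u, u⟫ * ⟪v, v⟫ - ⟪u, v⟫ ^ 2 ∧
    ⟪u, e₁⟫ ^ 2 + ⟪u, e₂⟫ ^ 2 ≤ ⟪u, u⟫ ∧ ⟪v, e₁⟫ ^ 2 + ⟪v, e₂⟫ ^ 2 ≤ ⟪v, v⟫ := by
  have h21 : ⟪e₂, e₁⟫ = 0 := by rw [real_inner_comm]; exact h12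
  obtain ⟨x1, hx1⟩ : ∃ x, x = ⟪u, e₁⟫ := ⟨_, rfl⟩
  obtain ⟨x2, hx2⟩ : ∃ x, x = ⟪u, e₂⟫ := ⟨_, rfl⟩
  obtain ⟨y1, hy1⟩ : ∃ x, x = ⟪v, e₁⟫ := ⟨_, rfl⟩
  obtain ⟨y2, hy2⟩ : ∃ x, x = ⟪v, e₂⟫ := ⟨_, rfl⟩
  have hx1' : ⟪e₁, u⟫ = x1 := by rw [real_inner_comm, hx1]
  have hx2' : ⟪e₂, u⟫ = x2 := by rw [real_inner_comm, hx2]
  have hy1' : ⟪e₁, v⟫ = y1 := by rw [real_inner_comm, hy1]
  have hy2' : ⟪e₂, v⟫ = y2 := by rw [real_inner_comm, hy2]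
  have huu : ⟪u - x1 • e₁ - x2 • e₂, u - x1 • e₁ - x2 • e₂⟫ = ⟪u, u⟫ - x1 ^ 2 - x2 ^ 2 := by
    simp only [inner_sub_left, inner_sub_right, inner_smul_left, inner_smul_right, h11, h22, h12,
      h21, hx1', hx2', ← hx1, ← hx2, RCLike.conj_to_real]
    ring
  have hvv : ⟪v - y1 • e₁ - y2 • e₂, v - y1 • e₁ - y2 • e₂⟫ = ⟪v, v⟫ - y1 ^ 2 - y2 ^ 2 := by
    simp only [inner_sub_left, inner_sub_right, inner_smul_left, inner_smul_right, h11, h22, h12,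
      h21, hy1', hy2', ← hy1, ← hy2, RCLike.conj_to_real]
    ring
  have huv : ⟪u - x1 • e₁ - x2 • e₂, v - y1 • e₁ - y2 • e₂⟫ = ⟪u, v⟫ - x1 * y1 - x2 * y2 := by
    simp only [inner_sub_left, inner_sub_right, inner_smul_left, inner_smul_right, h11, h22, h12,
      h21, hy1', hy2', ← hx1, ← hx2, RCLike.conj_to_real]
    ring
  have hcs := real_inner_mul_inner_self_le (u - x1 • e₁ - x2 • e₂) (v - y1 • e₁ - y2 • e₂)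
  have hu0 : 0 ≤ ⟪u - x1 • e₁ - x2 • e₂, u - x1 • e₁ - x2 • e₂⟫ := real_inner_self_nonneg
  have hv0 : 0 ≤ ⟪v - y1 • e₁ - y2 • e₂, v - y1 • e₁ - y2 • e₂⟫ := real_inner_self_nonneg
  rw [huv, huu, hvv] at hcs
  rw [huu] at hu0
  rw [hvv] at hv0
  rw [← hx1, ← hx2, ← hy1, ← hy2]
  set P := ⟪u, u⟫ - x1 ^ 2 - x2 ^ 2
  set Q := ⟪v, v⟫ - y1 ^ 2 - y2 ^ 2
  set R := ⟪u, v⟫ - x1 * y1 - x2 * y2
  have e1 : ⟪u, u⟫ = P + x1 ^ 2 + x2 ^ 2 := by ring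
  have e2 : ⟪v, v⟫ = Q + y1 ^ 2 + y2 ^ 2 := by ring
  have e3 : ⟪u, v⟫ = R + x1 * y1 + x2 * y2 := by ring
  refine ⟨?_, by linarith, by linarith⟩
  rw [e1, e2, e3]
  -- 2 (x·y) R ≤ |x|² Q + |y|² P
  have key : 2 * ((x1 * y1 + x2 * y2) * R) ≤ (x1 ^ 2 + x2 ^ 2) * Q + (y1 ^ 2 + y2 ^ 2) * P := by
    have h1 : ((x1 * y1 + x2 * y2) * R) ^ 2 ≤
        ((x1 ^ 2 + x2 ^ 2) * Q) * ((y1 ^ 2 + y2 ^ 2) * P) := by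
      have h2 : (x1 * y1 + x2 * y2) ^ 2 ≤ (x1 ^ 2 + x2 ^ 2) * (y1 ^ 2 + y2 ^ 2) := by
        nlinarith [sq_nonneg (x1 * y2 - x2 * y1)]
      calc ((x1 * y1 + x2 * y2) * R) ^ 2 = (x1 * y1 + x2 * y2) ^ 2 * (R * R) := by ring
        _ ≤ ((x1 ^ 2 + x2 ^ 2) * (y1 ^ 2 + y2 ^ 2)) * (P * Q) := by
          apply mul_le_mul h2 hcs (mul_self_nonneg R) (by positivity)
        _ = _ := by ring
    have hA : 0 ≤ (x1 ^ 2 + x2 ^ 2) * Q := by positivity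
    have hB : 0 ≤ (y1 ^ 2 + y2 ^ 2) * P := by positivity
    have h3 : (2 * ((x1 * y1 + x2 * y2) * R)) ^ 2 ≤
        ((x1 ^ 2 + x2 ^ 2) * Q + (y1 ^ 2 + y2 ^ 2) * P) ^ 2 := by
      nlinarith [sq_nonneg ((x1 ^ 2 + x2 ^ 2) * Q - (y1 ^ 2 + y2 ^ 2) * P)]
    exact (abs_le_of_sq_le_sq' h3 (by linarith)).2
  nlinarith

/-- a bound for the nuclear norm of a pair of vectors -/
theorem nuc {e₁ e₂ u v : E} (h11 : ⟪e₁, e₁⟫ = 1) (h22 : ⟪e₂, e₂⟫ = 1) (h12 : ⟪e₁, e₂⟫ = 0)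
    {p w q : ℝ} (hp : ⟪u, u⟫ ≤ p) (hw : ⟪v, v⟫ ≤ w)
    (hD : ⟪u, u⟫ * ⟪v, v⟫ - ⟪u, v⟫ ^ 2 ≤ p * w - q ^ 2) (hA : p + w ≤ 1 / 4)
    (hS : 0 ≤ 1 + 16 * (p - w) ^ 2 + 64 * q ^ 2 - 8 * (p + w)) :
    ⟪u, e₁⟫ + ⟪v, e₂⟫ ≤ 1 / 2 := by
  obtain ⟨h1, h2, h3⟩ := gram_ge (u := u) (v := v) h11 h22 h12
  obtain ⟨D, hDd⟩ : ∃ D, D = ⟪u, e₁⟫ * ⟪v, e₂⟫ - ⟪u, e₂⟫ * ⟪v, e₁⟫ := ⟨_, rfl⟩
  rw [← hDd] at h1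
  have h4 : (2 * D) ^ 2 ≤ (1 / 4 - (p + w)) ^ 2 := by nlinarith
  have h5 : 2 * D ≤ 1 / 4 - (p + w) := (abs_le_of_sq_le_sq' h4 (by linarith)).2
  have h6 : (⟪u, e₁⟫ + ⟪v, e₂⟫) ^ 2 ≤ (1 / 2) ^ 2 := by
    nlinarith [sq_nonneg (⟪u, e₂⟫ - ⟪v, e₁⟫)]
  exact (abs_le_of_sq_le_sq' h6 (by norm_num)).2

lemma bessel2 {e₁ e₂ u : E} (h11 : ⟪e₁, e₁⟫ = 1) (h22 : ⟪e₂, e₂⟫ = 1) (h12 : ⟪e₁, e₂⟫ = 0) :
    ⟪u, e₁⟫ ^ 2 + ⟪u, e₂⟫ ^ 2 ≤ ⟪u, u⟫ :=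
  (gram_ge (u := u) (v := u) h11 h22 h12).2.1

/-- the trace of a positive semidefinite form over a plane is at most its full trace -/
theorem psd {e₁ e₂ z n m : E} (h11 : ⟪e₁, e₁⟫ = 1) (h22 : ⟪e₂, e₂⟫ = 1) (h12 : ⟪e₁, e₂⟫ = 0)
    (hz : ⟪z, z⟫ ≤ 1) (hn : ⟪n, n⟫ = 1) (hm : ⟪m, m⟫ = 1) (hnm : ⟪n, m⟫ = 0)
    {A11 A22 A33 A12 A13 A23 : ℝ} (h1 : 0 < A11) (h2 : 0 < A11 * A22 - A12 ^ 2)
    (h3 : 0 ≤ A11 * A22 * A33 + 2 * A12 * A13 * A23 - A11 * A23 ^ 2 - A22 * A13 ^ 2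
      - A33 * A12 ^ 2) :
    (A11 * ⟪z, e₁⟫ ^ 2 + A22 * ⟪n, e₁⟫ ^ 2 + A33 * ⟪m, e₁⟫ ^ 2 + 2 * A12 * (⟪z, e₁⟫ * ⟪n, e₁⟫)
      + 2 * A13 * (⟪z, e₁⟫ * ⟪m, e₁⟫) + 2 * A23 * (⟪n, e₁⟫ * ⟪m, e₁⟫))
    + (A11 * ⟪z, e₂⟫ ^ 2 + A22 * ⟪n, e₂⟫ ^ 2 + A33 * ⟪m, e₂⟫ ^ 2 + 2 * A12 * (⟪z, e₂⟫ * ⟪n, e₂⟫)
      + 2 * A13 * (⟪z, e₂⟫ * ⟪m, e₂⟫) + 2 * A23 * (⟪n, e₂⟫ * ⟪m, e₂⟫))
    ≤ A11 + A22 + A33 + 2 * ⟪z, n⟫ * A12 + 2 * ⟪z, m⟫ * A13 := by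
  set a := A12 / A11 with ha
  set b := A13 / A11 with hb
  set D := A11 * A22 - A12 ^ 2 with hD
  set g := (A11 * A23 - A12 * A13) / D with hg
  set F := A11 * A22 * A33 + 2 * A12 * A13 * A23 - A11 * A23 ^ 2 - A22 * A13 ^ 2
      - A33 * A12 ^ 2 with hF
  have hmn : ⟪m, n⟫ = 0 := by rw [real_inner_comm]; exact hnm
  have hnz : ⟪n, z⟫ = ⟪z, n⟫ := real_inner_comm _ _
  have hmz : ⟪m, z⟫ = ⟪z, m⟫ := real_inner_comm _ _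
  have b1 := bessel2 (u := z + a • n + b • m) h11 h22 h12
  have b2 := bessel2 (u := n + g • m) h11 h22 h12
  have b3 := bessel2 (u := m) h11 h22 h12
  simp only [inner_add_left, inner_add_right, inner_smul_left, inner_smul_right, hn, hm, hnm,
    hmn, hnz, hmz, RCLike.conj_to_real] at b1 b2 b3
  have hA11 := h1.ne'
  have hDne := h2.ne'
  have e12 : A12 = A11 * a := by rw [ha]; field_simp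
  have e13 : A13 = A11 * b := by rw [hb]; field_simp
  have e22 : A22 = A11 * a ^ 2 + D / A11 := by
    rw [ha, hD]; field_simp; ring
  have e23 : A23 = A11 * a * b + D / A11 * g := by
    rw [ha, hb, hg]; field_simp; ring
  have e33 : A33 = A11 * b ^ 2 + D / A11 * g ^ 2 + F / D := by
    rw [hb, hg]
    field_simp
    rw [hF, hD]
    ring
  have c1 : 0 < D / A11 := div_pos h2 h1
  have c2 : 0 ≤ F / D := div_nonneg h3 h2.le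
  have k1 := mul_le_mul_of_nonneg_left b1 h1.le
  have k2 := mul_le_mul_of_nonneg_left b2 c1.le
  have k3 := mul_le_mul_of_nonneg_left b3 c2
  obtain ⟨r, hr⟩ : ∃ r, r = D / A11 := ⟨_, rfl⟩
  obtain ⟨t, ht⟩ : ∃ t, t = F / D := ⟨_, rfl⟩
  rw [← hr] at e22 e23 e33 k2
  rw [← ht] at e33 k3
  have hz' := mul_le_mul_of_nonneg_left hz h1.le
  rw [e12, e13, e23, e33, e22]
  clear_value a b g D F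
  clear e12 e13 e22 e23 e33 hr ht hF hD ha hb hg h2 h3 hDne c1 c2 b1 b2 b3
  nlinarith [k1, k2, k3, hz']

end Pool.Agent.Helper74.Iso2
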