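import Mathlib
import Pool.Agent.Helper74.Iso.Fields
import Pool.Agent.Helper74.Iso2.Cert
import Pool.Agent.Helper74.Iso2.Frame

/-!
# The two vector fields of the certificate
-/

set_option linter.unusedSectionVars false

namespace Pool.Agent.Helper74.Iso2

open RealInnerProductSpace InnerProductSpace Module Pool.Agent.Helper74.Iso Filter Topology
open scoped ContDiff

/-! ### one-variable coefficient functions -/

lemma hasDerivAt_poly5 (a b c d e f x : ℝ) :
    HasDerivAt (fun x : ℝ => a + b * x + c * x ^ 2 + d * x ^ 3 + e * x ^ 4 + f * x ^ 5)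
      (b + 2 * c * x + 3 * d * x ^ 2 + 4 * e * x ^ 3 + 5 * f * x ^ 4) x := by
  have h1 := (hasDerivAt_id x).const_mul b
  have h2 := (hasDerivAt_pow 2 x).const_mul c
  have h3 := (hasDerivAt_pow 3 x).const_mul d
  have h4 := (hasDerivAt_pow 4 x).const_mul e
  have h5 := (hasDerivAt_pow 5 x).const_mul f
  have h := (((((hasDerivAt_const x a).add h1).add h2).add h3).add h4).add h5
  refine HasDerivAt.congr_deriv h ?_
  push_cast
  ring

lemma hasDerivAt_fC (x : ℝ) : HasDerivAt fC (f1C x) x := by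
  have h := hasDerivAt_poly5 (152 / 1000) (-108 / 1000) (30 / 1000) 0 0 0 x
  convert h using 1
  · funext t; simp only [fC]; ring
  · simp only [f1C]; ring

lemma hasDerivAt_f1C (x : ℝ) : HasDerivAt f1C (60 / 1000) x := by
  have h := hasDerivAt_poly5 (-108 / 1000) (60 / 1000) 0 0 0 0 x
  convert h using 1
  · funext t; simp only [f1C]; ring
  · ring

lemma hasDerivAt_aP (x : ℝ) : HasDerivAt aP (274 / 1000) x := by
  have h := hasDerivAt_poly5 (230 / 1000) (274 / 1000) 0 0 0 0 x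
  convert h using 1
  · funext t; simp only [aP]; ring
  · ring

lemma hasDerivAt_bE0 (x : ℝ) : HasDerivAt (fun c => bE c 0) (bEc x 0) x := by
  have h := hasDerivAt_poly5 (-114 / 1000) (-86 / 1000) (54 / 1000) (-164 / 1000) (218 / 1000)
    (-88 / 1000) x
  convert h using 1
  · funext t; simp only [bE, fC, f1C, BC, aP]; ring
  · simp only [bEc, f1C, BC, aP, B1C]; ring

lemma hasDerivAt_bEe (x : ℝ) : HasDerivAt bEe (bEc x 1 - bEc x 0) x := by
  have h := hasDerivAt_poly5 (16 / 1000) (-144 / 1000) (158 / 1000) (-88 / 1000) 0 0 x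
  convert h using 1
  · funext t; simp only [bEe, f1C, BC]; ring
  · simp only [bEc, f1C, BC, aP, B1C]; ring

lemma hasDerivAt_eT (x : ℝ) : HasDerivAt eT (eT1 x) x := by
  have h := hasDerivAt_poly5 (-122 / 1000) (166 / 1000) (-108 / 1000) (60 / 1000) 0 0 x
  convert h using 1
  · funext t; simp only [eT, f1C, aP]; ring
  · simp only [eT1, f1C]; ring

lemma bE_eq (c e : ℝ) : bE c e = bE c 0 + e * bEe c := by
  simp only [bE, bEe]; ring

lemma bEc_eq (c e : ℝ) : bEc c e = bEc c 0 + e * (bEc c 1 - bEc c 0) := by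
  simp only [bEc]; ring

/-- the square of the negative part -/
lemma hasDerivAt_minsq (x : ℝ) : HasDerivAt (fun c : ℝ => (min c 0) ^ 2) (2 * min x 0) x := by
  rcases lt_trichotomy x 0 with hx | hx | hx
  · have h1 : (fun c : ℝ => (min c 0) ^ 2) =ᶠ[𝓝 x] fun c => c ^ 2 := by
      filter_upwards [Iio_mem_nhds hx] with c hc
      rw [min_eq_left (le_of_lt hc)]
    rw [min_eq_left hx.le]
    have h2 := hasDerivAt_pow 2 x
    refine (h2.congr_of_eventuallyEq h1).congr_deriv ?_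
    norm_num
  · subst hx
    rw [min_self, mul_zero, hasDerivAt_iff_isLittleO]
    have h1 : (fun x' : ℝ => x' ^ 2) =o[𝓝 0] fun x' => x' := by
      simpa using Asymptotics.isLittleO_pow_id (𝕜 := ℝ) (n := 2) (by norm_num)
    refine Asymptotics.IsBigO.trans_isLittleO ?_ (h1.congr_right (fun x' => (sub_zero x').symm))
    refine Asymptotics.IsBigO.of_bound 1 ?_
    filter_upwards with c
    simp only [min_self, smul_zero, sub_zero, ne_eq, OfNat.ofNat_ne_zero, not_false_eq_true,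
      zero_pow, Real.norm_eq_abs, one_mul, abs_pow]
    rcases le_total c 0 with hc | hc
    · rw [min_eq_left hc]
    · rw [min_eq_right hc]; simp; positivity
  · have h1 : (fun c : ℝ => (min c 0) ^ 2) =ᶠ[𝓝 x] fun _ => 0 := by
      filter_upwards [Ioi_mem_nhds hx] with c hc
      rw [min_eq_right (le_of_lt hc)]; simp
    rw [min_eq_right hx.le, mul_zero]
    exact (hasDerivAt_const x 0).congr_of_eventuallyEq h1

/-- the radial coefficient of the first field -/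
noncomputable def aC (c : ℝ) : ℝ := aP c + 850 / 1000 * (min c 0) ^ 2

/-- its derivative -/
noncomputable def a1C (c : ℝ) : ℝ := 274 / 1000 + 850 / 1000 * (2 * min c 0)

lemma hasDerivAt_aC (x : ℝ) : HasDerivAt aC (a1C x) x :=
  (hasDerivAt_aP x).add ((hasDerivAt_minsq x).const_mul (850 / 1000))

lemma kC_mul (c : ℝ) : kC c * c = 850 / 1000 * min c 0 := by
  unfold kC
  split_ifs with h
  · rw [min_eq_right h]; ring
  · rw [min_eq_left (by linarith)]

lemma aC_eq (c : ℝ) : aC c = aP c + kC c * c ^ 2 := by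
  unfold aC kC
  split_ifs with h
  · rw [min_eq_right h]; ring
  · rw [min_eq_left (by linarith)]

lemma a1C_eq (c : ℝ) : a1C c = 274 / 1000 + 2 * kC c * c := by
  rw [mul_assoc, kC_mul, a1C]; ring

lemma continuous_a1C : Continuous a1C := by
  unfold a1C; fun_prop

lemma contDiff_aC : ContDiff ℝ 1 aC := by
  rw [contDiff_one_iff_deriv]
  refine ⟨fun x => (hasDerivAt_aC x).differentiableAt, ?_⟩
  have : deriv aC = a1C := funext fun x => (hasDerivAt_aC x).deriv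
  rw [this]
  exact continuous_a1C

/-! ### the fields -/

variable {E : Type*} [NormedAddCommGroup E] [InnerProductSpace ℝ E]

/-- the first field -/
noncomputable def UF (ε : ℝ) (x n m y : E) : E :=
  aC ⟪W ε x y, n⟫ • W ε x y + bE ⟪W ε x y, n⟫ (⟪W ε x y, m⟫ ^ 2) • n +
    (⟪W ε x y, m⟫ * eT ⟪W ε x y, n⟫) • m

/-- the second field -/
noncomputable def VF (ε : ℝ) (x n m y : E) : E :=
  (⟪W ε x y, m⟫ * (1 / 2 - ⟪W ε x y, n⟫ * f1C ⟪W ε x y, n⟫)) • W ε x y +
    (⟪W ε x y, m⟫ * f1C ⟪W ε x y, n⟫) • n + (fC ⟪W ε x y, n⟫ - 1 / 4) • m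

lemma contDiff_cc {ε : ℝ} (hε : 0 < ε) (x n : E) {k : WithTop ℕ∞} :
    ContDiff ℝ k (fun y => ⟪W ε x y, n⟫) := (contDiff_W hε x).inner ℝ contDiff_const

lemma contDiff_fC : ContDiff ℝ 1 fC := by unfold fC; fun_prop
lemma contDiff_f1C : ContDiff ℝ 1 f1C := by unfold f1C; fun_prop
lemma contDiff_eT : ContDiff ℝ 1 eT := by unfold eT f1C aP; fun_prop
lemma contDiff_bEe : ContDiff ℝ 1 bEe := by unfold bEe f1C BC; fun_prop
lemma contDiff_bE0 : ContDiff ℝ 1 (fun c => bE c 0) := by unfold bE fC f1C BC aP; fun_prop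

lemma contDiff_UF {ε : ℝ} (hε : 0 < ε) (x n m : E) : ContDiff ℝ 1 (UF ε x n m) := by
  have hn := contDiff_cc hε x n (k := 1)
  have hm := contDiff_cc hε x m (k := 1)
  have hb : ContDiff ℝ 1 (fun y => bE ⟪W ε x y, n⟫ (⟪W ε x y, m⟫ ^ 2)) := by
    have h1 : (fun y => bE ⟪W ε x y, n⟫ (⟪W ε x y, m⟫ ^ 2)) = fun y =>
        bE ⟪W ε x y, n⟫ 0 + ⟪W ε x y, m⟫ ^ 2 * bEe ⟪W ε x y, n⟫ := by
      funext y; exact bE_eq _ _
    rw [h1]
    exact (contDiff_bE0.comp hn).add ((hm.pow 2).mul (contDiff_bEe.comp hn))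
  exact (((contDiff_aC.comp hn).smul (contDiff_W hε x)).add (hb.smul contDiff_const)).add
    ((hm.mul (contDiff_eT.comp hn)).smul contDiff_const)

lemma contDiff_VF {ε : ℝ} (hε : 0 < ε) (x n m : E) : ContDiff ℝ 1 (VF ε x n m) := by
  have hn := contDiff_cc hε x n (k := 1)
  have hm := contDiff_cc hε x m (k := 1)
  exact (((hm.mul (contDiff_const.sub (hn.mul (contDiff_f1C.comp hn)))).smul
    (contDiff_W hε x)).add ((hm.mul (contDiff_f1C.comp hn)).smul contDiff_const)).add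
    (((contDiff_fC.comp hn).sub contDiff_const).smul contDiff_const)

lemma hasFDerivAt_cc {ε : ℝ} (hε : 0 < ε) (x n y : E) :
    HasFDerivAt (fun y => ⟪W ε x y, n⟫) ((innerSL ℝ n).comp (fderiv ℝ (W ε x) y)) y := by
  have hW : HasFDerivAt (W ε x) (fderiv ℝ (W ε x) y) y :=
    ((contDiff_W hε x (n := 1)).differentiable (by norm_num) y).hasFDerivAt
  have h1 : (fun y => ⟪W ε x y, n⟫) = fun y => innerSL ℝ n (W ε x y) := by
    funext y; rw [innerSL_apply_apply, real_inner_comm]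
  rw [h1]
  exact (innerSL ℝ n).hasFDerivAt.comp y hW

lemma fderiv_UF_apply {ε : ℝ} (hε : 0 < ε) (x n m y v : E) :
    fderiv ℝ (UF ε x n m) y v =
      (a1C ⟪W ε x y, n⟫ * ⟪n, fderiv ℝ (W ε x) y v⟫) • W ε x y +
      aC ⟪W ε x y, n⟫ • fderiv ℝ (W ε x) y v +
      (bEc ⟪W ε x y, n⟫ (⟪W ε x y, m⟫ ^ 2) * ⟪n, fderiv ℝ (W ε x) y v⟫ +
        2 * ⟪W ε x y, m⟫ * bEe ⟪W ε x y, n⟫ * ⟪m, fderiv ℝ (W ε x) y v⟫) • n +
      (⟪m, fderiv ℝ (W ε x) y v⟫ * eT ⟪W ε x y, n⟫ +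
        ⟪W ε x y, m⟫ * eT1 ⟪W ε x y, n⟫ * ⟪n, fderiv ℝ (W ε x) y v⟫) • m := by
  have hW : HasFDerivAt (W ε x) (fderiv ℝ (W ε x) y) y :=
    ((contDiff_W hε x (n := 1)).differentiable (by norm_num) y).hasFDerivAt
  have hn := hasFDerivAt_cc hε x n y
  have hm := hasFDerivAt_cc hε x m y
  have h1 := ((hasDerivAt_aC ⟪W ε x y, n⟫).comp_hasFDerivAt y hn).smul hW
  have h2a := (hasDerivAt_bE0 ⟪W ε x y, n⟫).comp_hasFDerivAt y hn
  have h2b := (hasDerivAt_bEe ⟪W ε x y, n⟫).comp_hasFDerivAt y hn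
  have h2 := (h2a.add ((hm.pow 2).mul h2b)).smul_const n
  have h3 := (hm.mul ((hasDerivAt_eT ⟪W ε x y, n⟫).comp_hasFDerivAt y hn)).smul_const m
  have h := (h1.add h2).add h3
  have hz : ∀ z, UF ε x n m z = (aC ⟪W ε x z, n⟫ • W ε x z +
      (bE ⟪W ε x z, n⟫ 0 + ⟪W ε x z, m⟫ ^ 2 * bEe ⟪W ε x z, n⟫) • n) +
      (⟪W ε x z, m⟫ * eT ⟪W ε x z, n⟫) • m := by
    intro z
    rw [UF, bE_eq]
  have h' := HasFDerivAt.congr_of_eventuallyEq (f₁ := UF ε x n m) h
    (Eventually.of_forall fun z => hz z)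
  rw [h'.fderiv, bEc_eq _ (⟪W ε x y, m⟫ ^ 2)]
  simp only [add_apply, smul_apply,
    ContinuousLinearMap.smulRight_apply, ContinuousLinearMap.comp_apply, innerSL_apply_apply,
    smul_eq_mul, Function.comp, nsmul_eq_mul]
  push_cast
  simp only [pow_one]
  module

lemma fderiv_VF_apply {ε : ℝ} (hε : 0 < ε) (x n m y v : E) :
    fderiv ℝ (VF ε x n m) y v =
      (⟪m, fderiv ℝ (W ε x) y v⟫ * (1 / 2 - ⟪W ε x y, n⟫ * f1C ⟪W ε x y, n⟫) -
        ⟪W ε x y, m⟫ * (f1C ⟪W ε x y, n⟫ + ⟪W ε x y, n⟫ * (60 / 1000)) *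
          ⟪n, fderiv ℝ (W ε x) y v⟫) • W ε x y +
      (⟪W ε x y, m⟫ * (1 / 2 - ⟪W ε x y, n⟫ * f1C ⟪W ε x y, n⟫)) • fderiv ℝ (W ε x) y v +
      (⟪m, fderiv ℝ (W ε x) y v⟫ * f1C ⟪W ε x y, n⟫ +
        ⟪W ε x y, m⟫ * (60 / 1000) * ⟪n, fderiv ℝ (W ε x) y v⟫) • n +
      (f1C ⟪W ε x y, n⟫ * ⟪n, fderiv ℝ (W ε x) y v⟫) • m := by
  have hW : HasFDerivAt (W ε x) (fderiv ℝ (W ε x) y) y :=
    ((contDiff_W hε x (n := 1)).differentiable (by norm_num) y).hasFDerivAt
  have hn := hasFDerivAt_cc hε x n y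
  have hm := hasFDerivAt_cc hε x m y
  have hf1 := (hasDerivAt_f1C ⟪W ε x y, n⟫).comp_hasFDerivAt y hn
  have hf := (hasDerivAt_fC ⟪W ε x y, n⟫).comp_hasFDerivAt y hn
  have h1 := (hm.mul ((hn.mul hf1).const_sub (1 / 2))).smul hW
  have h2 := (hm.mul hf1).smul_const n
  have h3 := (hf.sub_const (1 / 4)).smul_const m
  have h := (h1.add h2).add h3
  have h' : HasFDerivAt (VF ε x n m) _ y := h
  rw [h'.fderiv]
  simp only [add_apply, smul_apply, Pi.mul_apply,
    ContinuousLinearMap.smulRight_apply, ContinuousLinearMap.comp_apply, innerSL_apply_apply,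
    smul_eq_mul, Function.comp, neg_apply]
  module

end Pool.Agent.Helper74.Iso2
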