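import Mathlib
import Pool.Agent.Helper74.Iso2.Fields2

/-!
# The two pointwise inequalities for the fields of the certificate
-/

set_option linter.unusedSectionVars false

namespace Pool.Agent.Helper74.Iso2

open RealInnerProductSpace InnerProductSpace Module Pool.Agent.Helper74.Iso

variable {E : Type*} [NormedAddCommGroup E] [InnerProductSpace ℝ E]

lemma disc_le {ε : ℝ} (hε : 0 < ε) {x n m : E} (y : E) (hn : ⟪n, n⟫ = 1) (hm : ⟪m, m⟫ = 1)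
    (hnm : ⟪n, m⟫ = 0) : ⟪W ε x y, n⟫ ^ 2 + ⟪W ε x y, m⟫ ^ 2 ≤ 1 := by
  have h1 := bessel2 (u := W ε x y) hn hm hnm
  have h2 : ⟪W ε x y, W ε x y⟫ ≤ 1 := by
    rw [real_inner_self_eq_norm_sq]
    have := norm_W_le hε x y
    have := norm_nonneg (W ε x y)
    nlinarith
  linarith

/-- the boundary inequality -/
theorem pair_bound {ε : ℝ} (hε : 0 < ε) {x n m : E} (y : E) (hn : ⟪n, n⟫ = 1) (hm : ⟪m, m⟫ = 1)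
    (hnm : ⟪n, m⟫ = 0) {e₁ e₂ : E} (h11 : ⟪e₁, e₁⟫ = 1) (h22 : ⟪e₂, e₂⟫ = 1)
    (h12 : ⟪e₁, e₂⟫ = 0) :
    ⟪UF ε x n m y, e₁⟫ + ⟪VF ε x n m y, e₂⟫ ≤ 1 / 2 := by
  have hd := disc_le hε (x := x) y hn hm hnm
  obtain ⟨hS, hA, -, -, -, -⟩ := cert (sq_nonneg ⟪W ε x y, m⟫) hd
  have hmn : ⟪m, n⟫ = 0 := by rw [real_inner_comm]; exact hnm
  have hww : ⟪W ε x y, W ε x y⟫ ≤ 1 := by
    rw [real_inner_self_eq_norm_sq]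
    have := norm_W_le hε x y
    have := norm_nonneg (W ε x y)
    nlinarith
  have hnw : ⟪n, W ε x y⟫ = ⟪W ε x y, n⟫ := real_inner_comm _ _
  have hmw : ⟪m, W ε x y⟫ = ⟪W ε x y, m⟫ := real_inner_comm _ _
  unfold UF VF
  rw [aC_eq]
  obtain ⟨w, hw⟩ : ∃ w, w = W ε x y := ⟨_, rfl⟩
  rw [← hw] at hS hA hww hnw hmw ⊢
  obtain ⟨c, hc⟩ : ∃ c, c = ⟪w, n⟫ := ⟨_, rfl⟩
  obtain ⟨d, hdd⟩ : ∃ d, d = ⟪w, m⟫ := ⟨_, rfl⟩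
  rw [← hc] at hS hA hnw ⊢
  rw [← hdd] at hS hA hmw ⊢
  obtain ⟨k, hk⟩ : ∃ k, k = kC c := ⟨_, rfl⟩
  rw [← hk] at hS hA ⊢
  set a := aP c + k * c ^ 2 with ha
  set b := bE c (d ^ 2) with hb
  set t := eT c with ht
  set g := 1 / 2 - c * f1C c with hg
  set u := a • w + b • n + (d * t) • m with hu
  set v := (d * g) • w + (d * f1C c) • n + (fC c - 1 / 4) • m with hv
  set s := ⟪w, w⟫ with hs
  have huu : ⟪u, u⟫ = pF c (d ^ 2) k - a ^ 2 * (1 - s) := by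
    rw [hu]
    simp only [inner_add_left, inner_add_right, inner_smul_left, inner_smul_right,
      RCLike.conj_to_real, hn, hm, hnm, hmn, hnw, hmw, ← hc, ← hdd, ← hs]
    unfold pF
    rw [← ha, ← hb, ← ht]
    ring
  have hvv : ⟪v, v⟫ = wF c (d ^ 2) - (d * g) ^ 2 * (1 - s) := by
    rw [hv]
    simp only [inner_add_left, inner_add_right, inner_smul_left, inner_smul_right,
      RCLike.conj_to_real, hn, hm, hnm, hmn, hnw, hmw, ← hc, ← hdd, ← hs]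
    unfold wF
    rw [← hg]
    ring
  have huv : ⟪u, v⟫ = d * qF c (d ^ 2) k - a * (d * g) * (1 - s) := by
    rw [hu, hv]
    simp only [inner_add_left, inner_add_right, inner_smul_left, inner_smul_right,
      RCLike.conj_to_real, hn, hm, hnm, hmn, hnw, hmw, ← hc, ← hdd, ← hs]
    unfold qF
    rw [← ha, ← hb, ← ht, ← hg]
    ring
  have hsq : 0 ≤ ⟪a • v - (d * g) • u, a • v - (d * g) • u⟫ := real_inner_self_nonneg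
  have hvu : ⟪v, u⟫ = ⟪u, v⟫ := real_inner_comm _ _
  simp only [inner_sub_left, inner_sub_right, inner_smul_left, inner_smul_right,
    RCLike.conj_to_real, hvu] at hsq
  have hs1 : 0 ≤ 1 - s := by linarith
  refine nuc h11 h22 h12 (p := pF c (d ^ 2) k) (w := wF c (d ^ 2)) (q := d * qF c (d ^ 2) k)
    ?_ ?_ ?_ hA ?_
  · rw [huu]; nlinarith [mul_nonneg (sq_nonneg a) hs1]
  · rw [hvv]; nlinarith [mul_nonneg (sq_nonneg (d * g)) hs1]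
  · have hp : pF c (d ^ 2) k = ⟪u, u⟫ + a ^ 2 * (1 - s) := by rw [huu]; ring
    have hw' : wF c (d ^ 2) = ⟪v, v⟫ + (d * g) ^ 2 * (1 - s) := by rw [hvv]; ring
    have hq : d * qF c (d ^ 2) k = ⟪u, v⟫ + a * (d * g) * (1 - s) := by rw [huv]; ring
    rw [hp, hw', hq]
    have := mul_nonneg hs1 hsq
    linear_combination this
  · unfold SF at hS
    calc (0:ℝ) ≤ _ := hS
      _ = _ := by ring

/-- the interior inequality -/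
theorem plane_bound {ε : ℝ} (hε : 0 < ε) {x n m : E} (y : E) (hn : ⟪n, n⟫ = 1) (hm : ⟪m, m⟫ = 1)
    (hnm : ⟪n, m⟫ = 0) {e₁ e₂ : E} (h11 : ⟪e₁, e₁⟫ = 1) (h22 : ⟪e₂, e₂⟫ = 1)
    (h12 : ⟪e₁, e₂⟫ = 0) :
    1 / 2 * ((√(‖y - x‖ ^ 2 + ε ^ 2))⁻¹ * (⟪W ε x y, n⟫ +
      (⟪W ε x y, e₁⟫ * ⟪m, e₂⟫ - ⟪W ε x y, e₂⟫ * ⟪m, e₁⟫))) ≤
    (⟪e₁, fderiv ℝ (UF ε x n m) y e₁⟫ + ⟪e₂, fderiv ℝ (UF ε x n m) y e₂⟫) -
      (⟪e₂, fderiv ℝ (VF ε x n m) y e₁⟫ - ⟪e₁, fderiv ℝ (VF ε x n m) y e₂⟫) := by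
  have hd := disc_le hε (x := x) y hn hm hnm
  obtain ⟨-, -, h1, h2, h3, h4⟩ := cert (sq_nonneg ⟪W ε x y, m⟫) hd
  have hww : ⟪W ε x y, W ε x y⟫ ≤ 1 := by
    rw [real_inner_self_eq_norm_sq]
    have := norm_W_le hε x y
    have := norm_nonneg (W ε x y)
    nlinarith
  have hr : 0 < (√(‖y - x‖ ^ 2 + ε ^ 2))⁻¹ := inv_pos.mpr (Real.sqrt_pos.mpr (q_pos hε (y - x)))
  have hpsd := psd (A11 := P11 ⟪W ε x y, n⟫ (kC ⟪W ε x y, n⟫))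
    (A22 := P22 ⟪W ε x y, n⟫ (⟪W ε x y, m⟫ ^ 2)) (A33 := P33 ⟪W ε x y, n⟫)
    (A12 := P12 ⟪W ε x y, n⟫ (⟪W ε x y, m⟫ ^ 2) (kC ⟪W ε x y, n⟫))
    (A13 := ⟪W ε x y, m⟫ * P13 ⟪W ε x y, n⟫) (A23 := ⟪W ε x y, m⟫ * P23 ⟪W ε x y, n⟫)
    h11 h22 h12 hww hn hm hnm h1 (by unfold M2 at h2; exact h2)
    (by
      unfold M3 at h3
      calc (0:ℝ) ≤ _ := h3
        _ = _ := by ring)
  have h21 : ⟪e₂, e₁⟫ = 0 := by rw [real_inner_comm]; exact h12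
  have a1 := a1C_eq ⟪W ε x y, n⟫
  have a0 := aC_eq ⟪W ε x y, n⟫
  rw [fderiv_UF_apply hε, fderiv_UF_apply hε, fderiv_VF_apply hε, fderiv_VF_apply hε,
    fderiv_W_apply hε, fderiv_W_apply hε]
  simp only [inner_add_right, inner_sub_right, inner_smul_right, h11, h22, h12, h21,
    real_inner_comm (W ε x y) n, real_inner_comm (W ε x y) m, real_inner_comm (W ε x y) e₁,
    real_inner_comm (W ε x y) e₂, real_inner_comm n e₁, real_inner_comm n e₂,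
    real_inner_comm m e₁, real_inner_comm m e₂]
  rw [a1, a0]
  unfold bii at h4
  simp only [P11, P22, P33, P12, P13, P23] at hpsd
  obtain ⟨r, hrr⟩ : ∃ r, r = (√(‖y - x‖ ^ 2 + ε ^ 2))⁻¹ := ⟨_, rfl⟩
  rw [← hrr] at hr ⊢
  obtain ⟨c, hc⟩ : ∃ c, c = ⟪W ε x y, n⟫ := ⟨_, rfl⟩
  obtain ⟨d, hdd⟩ : ∃ d, d = ⟪W ε x y, m⟫ := ⟨_, rfl⟩
  rw [← hc] at hpsd h4 ⊢
  rw [← hdd] at hpsd h4 ⊢
  obtain ⟨X1, hX1⟩ : ∃ X, X = ⟪W ε x y, e₁⟫ := ⟨_, rfl⟩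
  obtain ⟨X2, hX2⟩ : ∃ X, X = ⟪W ε x y, e₂⟫ := ⟨_, rfl⟩
  obtain ⟨N1, hN1⟩ : ∃ X, X = ⟪n, e₁⟫ := ⟨_, rfl⟩
  obtain ⟨N2, hN2⟩ : ∃ X, X = ⟪n, e₂⟫ := ⟨_, rfl⟩
  obtain ⟨Q1, hQ1⟩ : ∃ X, X = ⟪m, e₁⟫ := ⟨_, rfl⟩
  obtain ⟨Q2, hQ2⟩ : ∃ X, X = ⟪m, e₂⟫ := ⟨_, rfl⟩
  rw [← hX1, ← hX2, ← hN1, ← hN2, ← hQ1, ← hQ2] at hpsd ⊢
  clear hX1 hX2 hN1 hN2 hQ1 hQ2 hc hdd hrr a0 a1 h1 h2 h3 hww hd
  obtain ⟨k, hk⟩ : ∃ k, k = kC c := ⟨_, rfl⟩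
  rw [← hk] at hpsd h4 ⊢
  obtain ⟨A, hA⟩ : ∃ A, A = aP c := ⟨_, rfl⟩
  obtain ⟨B, hB⟩ : ∃ A, A = bEc c (d ^ 2) := ⟨_, rfl⟩
  obtain ⟨B', hB'⟩ : ∃ A, A = bEe c := ⟨_, rfl⟩
  obtain ⟨T, hT⟩ : ∃ A, A = eT c := ⟨_, rfl⟩
  obtain ⟨T', hT'⟩ : ∃ A, A = eT1 c := ⟨_, rfl⟩
  obtain ⟨F, hF⟩ : ∃ A, A = f1C c := ⟨_, rfl⟩
  rw [← hA, ← hB, ← hB', ← hT, ← hT'] at hpsd h4 ⊢
  rw [← hF]
  have key := add_le_add (mul_le_mul_of_nonneg_left h4 hr.le)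
    (mul_le_mul_of_nonneg_left hpsd hr.le)
  linear_combination key

end Pool.Agent.Helper74.Iso2
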