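import Mathlib
import Pool.Agent.Helper74.Iso.Fields
import Pool.Agent.Helper74.Iso2.Frame

/-!
# Linear algebra of oriented planes

An oriented plane is encoded by the rotation `J` by a right angle in the plane, extended by zero to
the orthogonal complement.
-/

set_option linter.unusedSectionVars false

namespace Pool.Agent.Helper74.Iso2

open RealInnerProductSpace InnerProductSpace Module Pool.Agent.Helper74.Iso

variable {E : Type*} [NormedAddCommGroup E] [InnerProductSpace ℝ E] [FiniteDimensional ℝ E]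

/-- `J` is the rotation by a right angle of an oriented plane (zero on the orthogonal
complement) -/
def IsPlaneRot (J : E →L[ℝ] E) : Prop :=
  ∃ q₁ q₂ : E, ⟪q₁, q₁⟫ = 1 ∧ ⟪q₂, q₂⟫ = 1 ∧ ⟪q₁, q₂⟫ = 0 ∧
    ∀ v, J v = ⟪q₁, v⟫ • q₂ - ⟪q₂, v⟫ • q₁

/-- divergence along the plane of `J` -/
noncomputable def dv (J A : E →L[ℝ] E) : ℝ := -LinearMap.trace ℝ E ((J ∘L J ∘L A : E →L[ℝ] E) : E →ₗ[ℝ] E)

/-- curl along the plane of `J` -/
noncomputable def cu (J A : E →L[ℝ] E) : ℝ := -LinearMap.trace ℝ E ((J ∘L A : E →L[ℝ] E) : E →ₗ[ℝ] E)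

/-- the square of the Hilbert-Schmidt norm of a skew map -/
noncomputable def hs (C : E →L[ℝ] E) : ℝ := -LinearMap.trace ℝ E ((C ∘L C : E →L[ℝ] E) : E →ₗ[ℝ] E)

lemma trace_comp_rank (A : E →L[ℝ] E) (u v : E) :
    LinearMap.trace ℝ E ((A ∘L (rankOne ℝ u v) : E →L[ℝ] E) : E →ₗ[ℝ] E) = ⟪v, A u⟫ := by
  have : A ∘L (rankOne ℝ u v) = rankOne ℝ (A u) v := by
    ext w; simp
  rw [this, InnerProductSpace.trace_rankOne]

lemma trace_rank_comp (A : E →L[ℝ] E) (u v : E) :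
    LinearMap.trace ℝ E (((rankOne ℝ u v) ∘L A : E →L[ℝ] E) : E →ₗ[ℝ] E) = ⟪v, A u⟫ := by
  rw [ContinuousLinearMap.toLinearMap_comp, LinearMap.trace_comp_comm',
    ← ContinuousLinearMap.toLinearMap_comp, trace_comp_rank]

lemma IsPlaneRot.eq_rank {J : E →L[ℝ] E} {q₁ q₂ : E}
    (h : ∀ v, J v = ⟪q₁, v⟫ • q₂ - ⟪q₂, v⟫ • q₁) : J = rankOne ℝ q₂ q₁ - rankOne ℝ q₁ q₂ := by
  ext v; simp [h]

lemma cu_eq {J : E →L[ℝ] E} {q₁ q₂ : E}
    (h : ∀ v, J v = ⟪q₁, v⟫ • q₂ - ⟪q₂, v⟫ • q₁) (A : E →L[ℝ] E) :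
    cu J A = ⟪q₂, A q₁⟫ - ⟪q₁, A q₂⟫ := by
  rw [cu, IsPlaneRot.eq_rank h, ContinuousLinearMap.sub_comp]
  rw [ContinuousLinearMap.toLinearMap_sub, map_sub, trace_rank_comp, trace_rank_comp]
  ring

lemma dv_eq {J : E →L[ℝ] E} {q₁ q₂ : E} (h11 : ⟪q₁, q₁⟫ = 1) (h22 : ⟪q₂, q₂⟫ = 1)
    (h12 : ⟪q₁, q₂⟫ = 0) (h : ∀ v, J v = ⟪q₁, v⟫ • q₂ - ⟪q₂, v⟫ • q₁) (A : E →L[ℝ] E) :
    dv J A = ⟪q₁, A q₁⟫ + ⟪q₂, A q₂⟫ := by
  have h21 : ⟪q₂, q₁⟫ = 0 := by rw [real_inner_comm]; exact h12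
  have hJJ : J ∘L J = -(rankOne ℝ q₁ q₁ + rankOne ℝ q₂ q₂) := by
    ext v
    simp only [ContinuousLinearMap.comp_apply, h, inner_sub_right, inner_smul_right, h11, h22, h12,
      h21, neg_apply, add_apply, rankOne_apply]
    module
  have h3 : J ∘L J ∘L A = -((rankOne ℝ q₁ q₁) ∘L A + (rankOne ℝ q₂ q₂) ∘L A) := by
    rw [← ContinuousLinearMap.comp_assoc, hJJ, ContinuousLinearMap.neg_comp,
      ContinuousLinearMap.add_comp]
  rw [dv, h3, ContinuousLinearMap.toLinearMap_neg, map_neg, neg_neg,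
    ContinuousLinearMap.toLinearMap_add, map_add, trace_rank_comp, trace_rank_comp]

lemma IsPlaneRot.skew {J : E →L[ℝ] E} (hJ : IsPlaneRot J) (u v : E) : ⟪J u, v⟫ = -⟪u, J v⟫ := by
  obtain ⟨q₁, q₂, h11, h22, h12, h⟩ := hJ
  rw [h, h, inner_sub_left, inner_sub_right, inner_smul_left, inner_smul_left, inner_smul_right,
    inner_smul_right]
  simp only [RCLike.conj_to_real]
  rw [real_inner_comm q₁ u, real_inner_comm q₂ u]
  ring

lemma IsPlaneRot.norm_le {J : E →L[ℝ] E} (hJ : IsPlaneRot J) : ‖J‖ ≤ 1 := by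
  obtain ⟨q₁, q₂, h11, h22, h12, h⟩ := hJ
  have h21 : ⟪q₂, q₁⟫ = 0 := by rw [real_inner_comm]; exact h12
  refine ContinuousLinearMap.opNorm_le_bound _ zero_le_one fun v => ?_
  have h1 : ‖J v‖ ^ 2 ≤ ‖v‖ ^ 2 := by
    rw [← real_inner_self_eq_norm_sq, ← real_inner_self_eq_norm_sq, h]
    have h2 := bessel2 (u := v) h11 h22 h12
    simp only [inner_sub_left, inner_sub_right, inner_smul_left, inner_smul_right,
      RCLike.conj_to_real, h11, h22, h12, h21]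
    rw [real_inner_comm v q₁, real_inner_comm v q₂]
    nlinarith
  rw [one_mul]
  exact (abs_le_of_sq_le_sq' h1 (norm_nonneg _)).2

lemma IsPlaneRot.hs_eq {J : E →L[ℝ] E} (hJ : IsPlaneRot J) : hs J = 2 := by
  obtain ⟨q₁, q₂, h11, h22, h12, h⟩ := hJ
  have h1 := cu_eq h J
  have h21 : ⟪q₂, q₁⟫ = 0 := by rw [real_inner_comm]; exact h12
  have h2 : hs J = cu J J := rfl
  rw [h2, h1, h, h]
  simp only [inner_sub_right, inner_smul_right, h11, h22, h12, h21]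
  norm_num

lemma hs_nonneg {C : E →L[ℝ] E} (hC : ∀ u v, ⟪C u, v⟫ = -⟪u, C v⟫) : 0 ≤ hs C := by
  rw [hs, LinearMap.trace_eq_sum_inner _ (stdOrthonormalBasis ℝ E), ← Finset.sum_neg_distrib]
  apply Finset.sum_nonneg
  intro i _
  have h1 := hC (stdOrthonormalBasis ℝ E i) (C (stdOrthonormalBasis ℝ E i))
  have h2 : 0 ≤ ⟪C (stdOrthonormalBasis ℝ E i), C (stdOrthonormalBasis ℝ E i)⟫ :=
    real_inner_self_nonneg
  rw [h1] at h2
  exact h2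

lemma hs_ge {C : E →L[ℝ] E} (hC : ∀ u v, ⟪C u, v⟫ = -⟪u, C v⟫) (z : E) :
    2 * ⟪C z, C z⟫ ≤ hs C * ‖z‖ ^ 2 := by
  by_cases hz : z = 0
  · subst hz; simp
  -- reduce to a unit vector
  have key : ∀ z : E, ⟪z, z⟫ = 1 → 2 * ⟪C z, C z⟫ ≤ hs C := by
    intro z hz
    obtain ⟨w, hw⟩ : ∃ w, w = C z := ⟨_, rfl⟩
    have hwz : ⟪w, z⟫ = 0 := by
      have := hC z z
      rw [← hw, real_inner_comm z w] at this
      have h2 : ⟪z, w⟫ = ⟪w, z⟫ := real_inner_comm _ _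
      linarith
    have hzw : ⟪z, w⟫ = 0 := by rw [real_inner_comm]; exact hwz
    obtain ⟨R, hR⟩ : ∃ R : E →L[ℝ] E, R = rankOne ℝ w z - rankOne ℝ z w := ⟨_, rfl⟩
    have hRa : ∀ v, R v = ⟪z, v⟫ • w - ⟪w, v⟫ • z := by intro v; rw [hR]; simp
    have hD : ∀ u v, ⟪(C - R) u, v⟫ = -⟪u, (C - R) v⟫ := by
      intro u v
      rw [sub_apply, sub_apply, inner_sub_left, inner_sub_right, hC, hRa, hRa, inner_sub_left,
        inner_sub_right, inner_smul_left, inner_smul_left, inner_smul_right, inner_smul_right]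
      simp only [RCLike.conj_to_real]
      rw [real_inner_comm z u, real_inner_comm w u]
      ring
    have h1 := hs_nonneg hD
    have h2 : hs (C - R) = hs C + 2 * LinearMap.trace ℝ E ((C ∘L R : E →L[ℝ] E) : E →ₗ[ℝ] E) +
        hs R := by
      have h3 : LinearMap.trace ℝ E ((R ∘L C : E →L[ℝ] E) : E →ₗ[ℝ] E) =
          LinearMap.trace ℝ E ((C ∘L R : E →L[ℝ] E) : E →ₗ[ℝ] E) := by
        rw [ContinuousLinearMap.toLinearMap_comp, LinearMap.trace_comp_comm',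
          ← ContinuousLinearMap.toLinearMap_comp]
      have h4 : (C - R) ∘L (C - R) = C ∘L C - C ∘L R - R ∘L C + R ∘L R := by
        ext v; simp; abel
      rw [hs, h4]
      simp only [ContinuousLinearMap.toLinearMap_add, ContinuousLinearMap.toLinearMap_sub, map_add,
        map_sub, h3]
      unfold hs
      ring
    have h5 : LinearMap.trace ℝ E ((C ∘L R : E →L[ℝ] E) : E →ₗ[ℝ] E) = -2 * ⟪w, w⟫ := by
      rw [hR, ContinuousLinearMap.comp_sub, ContinuousLinearMap.toLinearMap_sub, map_sub,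
        trace_comp_rank, trace_comp_rank, ← hw]
      have h6 := hC z w
      rw [← hw] at h6
      have h7 : ⟪z, C w⟫ = -⟪w, w⟫ := by linarith
      rw [h7]; ring
    have h6 : hs R = 2 * ⟪w, w⟫ := by
      have h7 : R ∘L R = (rankOne ℝ w z) ∘L R - (rankOne ℝ z w) ∘L R := by
        nth_rw 1 [hR]; rw [ContinuousLinearMap.sub_comp]
      rw [hs, h7, ContinuousLinearMap.toLinearMap_sub, map_sub, trace_rank_comp, trace_rank_comp,
        hRa, hRa]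
      simp only [inner_sub_right, inner_smul_right, hz, hzw, hwz]
      ring
    rw [h2, h5, h6] at h1
    rw [← hw]
    linarith
  have hn : ‖z‖ ≠ 0 := norm_ne_zero_iff.2 hz
  have h1 := key (‖z‖⁻¹ • z) (by
    rw [inner_smul_left, inner_smul_right, real_inner_self_eq_norm_sq, RCLike.conj_to_real]
    field_simp)
  rw [map_smul, inner_smul_left, inner_smul_right, RCLike.conj_to_real] at h1
  have h2 : 0 < ‖z‖ ^ 2 := by positivity
  calc 2 * ⟪C z, C z⟫ = (2 * (‖z‖⁻¹ * (‖z‖⁻¹ * ⟪C z, C z⟫))) * ‖z‖ ^ 2 := by field_simp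
    _ ≤ hs C * ‖z‖ ^ 2 := mul_le_mul_of_nonneg_right h1 h2.le

/-- the second derivative matrix -/
noncomputable def AA (ε : ℝ) (z : E) : E →L[ℝ] E :=
  (‖z‖ ^ 2 + ε ^ 2)⁻¹ • ContinuousLinearMap.id ℝ E -
    (2 * (‖z‖ ^ 2 + ε ^ 2)⁻¹ ^ 2) • rankOne ℝ z z

lemma AA_neg (ε : ℝ) (z : E) : AA ε (-z) = AA ε z := by
  unfold AA
  rw [norm_neg]
  congr 2
  ext v
  simp

lemma fderiv_X1_eq {ε : ℝ} (hε : 0 < ε) (y x : E) : fderiv ℝ (X1 ε y) x = AA ε (x - y) := by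
  rw [(hasFDerivAt_X1 hε y x).fderiv, AA]
  ext v
  simp only [add_apply, smul_apply, sub_apply, ContinuousLinearMap.smulRight_apply,
    ContinuousLinearMap.id_apply, innerSL_apply_apply, rankOne_apply, smul_eq_mul]
  module

lemma trace_CCAA {C : E →L[ℝ] E} (hC : ∀ u v, ⟪C u, v⟫ = -⟪u, C v⟫) (ε : ℝ) (z : E) :
    -LinearMap.trace ℝ E ((C ∘L C ∘L AA ε z : E →L[ℝ] E) : E →ₗ[ℝ] E) =
      (‖z‖ ^ 2 + ε ^ 2)⁻¹ * hs C - 2 * (‖z‖ ^ 2 + ε ^ 2)⁻¹ ^ 2 * ⟪C z, C z⟫ := by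
  have h1 : C ∘L C ∘L AA ε z = (‖z‖ ^ 2 + ε ^ 2)⁻¹ • (C ∘L C) -
      (2 * (‖z‖ ^ 2 + ε ^ 2)⁻¹ ^ 2) • ((C ∘L C) ∘L rankOne ℝ z z) := by
    ext v
    simp [AA]
  rw [h1, ContinuousLinearMap.toLinearMap_sub, map_sub, ContinuousLinearMap.toLinearMap_smul,
    ContinuousLinearMap.toLinearMap_smul, map_smul, map_smul, trace_comp_rank]
  have h2 : ⟪z, (C ∘L C) z⟫ = -⟪C z, C z⟫ := by
    have := hC z (C z)
    rw [ContinuousLinearMap.comp_apply]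
    linarith
  rw [h2, hs, smul_eq_mul, smul_eq_mul]
  ring

/-- pointwise lower bound for the symmetrised kernel -/
lemma sym_ge {ε : ℝ} (hε : 0 < ε) {C : E →L[ℝ] E} (hC : ∀ u v, ⟪C u, v⟫ = -⟪u, C v⟫) (z : E) :
    hs C * (ε ^ 2 / (‖z‖ ^ 2 + ε ^ 2) ^ 2) ≤
      -LinearMap.trace ℝ E ((C ∘L C ∘L AA ε z : E →L[ℝ] E) : E →ₗ[ℝ] E) := by
  rw [trace_CCAA hC]
  have h1 := hs_ge hC z
  have hq := q_pos hε z
  have h2 : 0 ≤ ((‖z‖ ^ 2 + ε ^ 2)⁻¹) ^ 2 := by positivity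
  have h3 := mul_le_mul_of_nonneg_left h1 h2
  have h4 : hs C * (ε ^ 2 / (‖z‖ ^ 2 + ε ^ 2) ^ 2) =
      (‖z‖ ^ 2 + ε ^ 2)⁻¹ * hs C - ((‖z‖ ^ 2 + ε ^ 2)⁻¹) ^ 2 * (hs C * ‖z‖ ^ 2) := by
    field_simp
    ring
  rw [h4]
  linarith

/-- the kernel before symmetrisation -/
noncomputable def EE (Jx Jy A : E →L[ℝ] E) : ℝ := 1 / 2 * (dv Jx A + cu Jx (Jy ∘L A))

lemma EE_symm (Jx Jy A : E →L[ℝ] E) : EE Jx Jy A + EE Jy Jx A =
    1 / 2 * (-LinearMap.trace ℝ E (((Jx + Jy) ∘L (Jx + Jy) ∘L A : E →L[ℝ] E) : E →ₗ[ℝ] E)) := by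
  have h : (Jx + Jy) ∘L (Jx + Jy) ∘L A = Jx ∘L Jx ∘L A + Jx ∘L Jy ∘L A + (Jy ∘L Jx ∘L A +
      Jy ∘L Jy ∘L A) := by
    ext v; simp; abel
  rw [h]
  simp only [ContinuousLinearMap.toLinearMap_add, map_add]
  unfold EE dv cu
  ring

end Pool.Agent.Helper74.Iso2
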