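import Mathlib
import Pool.Agent.Helper74.Iso.Core
import Pool.Agent.Helper74.Iso.Scale
import Pool.Agent.Helper74.Iso2.Div2
import Pool.Agent.Helper74.Iso2.Lin2

/-!
# The two-point inequality at scale `ε` for oriented stationary measures
-/

set_option linter.unusedSectionVars false

namespace Pool.Agent.Helper74.Iso2

open RealInnerProductSpace InnerProductSpace Module MeasureTheory Pool.Agent.Helper74.Iso
open scoped ContDiff

variable {E : Type*} [NormedAddCommGroup E] [InnerProductSpace ℝ E] [FiniteDimensional ℝ E]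
  [MeasurableSpace E] [BorelSpace E]

/-- bounded oriented stationary surfaces in weak form -/
structure OrStat (V S : Measure E) (J : E → E →L[ℝ] E) (ν τ : E → E) : Prop where
  bddV : ∃ R : ℝ, ∀ᵐ x ∂V, ‖x‖ ≤ R
  bddS : ∃ R : ℝ, ∀ᵐ x ∂S, ‖x‖ ≤ R
  rot : ∀ᵐ x ∂V, IsPlaneRot (J x)
  measJ : AEStronglyMeasurable J V
  frame : ∀ᵐ x ∂S, ⟪ν x, ν x⟫ = 1 ∧ ⟪τ x, τ x⟫ = 1 ∧ ⟪ν x, τ x⟫ = 0
  measν : AEStronglyMeasurable ν S
  measτ : AEStronglyMeasurable τ S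
  var : ∀ X : E → E, ContDiff ℝ 1 X →
    ∫ x, dv (J x) (fderiv ℝ X x) ∂V = ∫ x, ⟪X x, ν x⟫ ∂S
  sto : ∀ X : E → E, ContDiff ℝ 1 X →
    ∫ x, cu (J x) (fderiv ℝ X x) ∂V = ∫ x, ⟪X x, τ x⟫ ∂S

lemma continuous_trace : Continuous (fun B : E →L[ℝ] E => LinearMap.trace ℝ E (B : E →ₗ[ℝ] E)) :=
  LinearMap.continuous_of_finiteDimensional
    ((LinearMap.trace ℝ E).comp (ContinuousLinearMap.coeLM ℝ : (E →L[ℝ] E) →ₗ[ℝ] (E →ₗ[ℝ] E)))

lemma continuous_dv : Continuous (fun p : (E →L[ℝ] E) × (E →L[ℝ] E) => dv p.1 p.2) := by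
  unfold dv
  exact (continuous_trace.comp
    (continuous_fst.clm_comp (continuous_fst.clm_comp continuous_snd))).neg

lemma continuous_cu : Continuous (fun p : (E →L[ℝ] E) × (E →L[ℝ] E) => cu p.1 p.2) := by
  unfold cu
  exact (continuous_trace.comp (continuous_fst.clm_comp continuous_snd)).neg

lemma norm_eq_one_of {q : E} (h : ⟪q, q⟫ = 1) : ‖q‖ = 1 := by
  rw [real_inner_self_eq_norm_sq] at h
  have := norm_nonneg q
  nlinarith

lemma abs_inner_apply_le {u v : E} (hu : ⟪u, u⟫ = 1) (hv : ⟪v, v⟫ = 1) (A : E →L[ℝ] E) :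
    |⟪u, A v⟫| ≤ ‖A‖ := by
  calc |⟪u, A v⟫| ≤ ‖u‖ * ‖A v‖ := abs_real_inner_le_norm _ _
    _ ≤ ‖u‖ * (‖A‖ * ‖v‖) := by gcongr; exact A.le_opNorm v
    _ = ‖A‖ := by rw [norm_eq_one_of hu, norm_eq_one_of hv]; ring

lemma abs_dv_le {J : E →L[ℝ] E} (hJ : IsPlaneRot J) (A : E →L[ℝ] E) : |dv J A| ≤ 2 * ‖A‖ := by
  obtain ⟨q₁, q₂, h11, h22, h12, h⟩ := hJ
  rw [dv_eq h11 h22 h12 h]
  have h1 := abs_inner_apply_le h11 h11 A
  have h2 := abs_inner_apply_le h22 h22 A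
  calc _ ≤ |⟪q₁, A q₁⟫| + |⟪q₂, A q₂⟫| := abs_add_le _ _
    _ ≤ 2 * ‖A‖ := by linarith

lemma abs_cu_le {J : E →L[ℝ] E} (hJ : IsPlaneRot J) (A : E →L[ℝ] E) : |cu J A| ≤ 2 * ‖A‖ := by
  obtain ⟨q₁, q₂, h11, h22, h12, h⟩ := hJ
  rw [cu_eq h]
  have h1 := abs_inner_apply_le h22 h11 A
  have h2 := abs_inner_apply_le h11 h22 A
  calc _ ≤ |⟪q₂, A q₁⟫| + |⟪q₁, A q₂⟫| := abs_sub _ _
    _ ≤ 2 * ‖A‖ := by linarith

variable {V S : Measure E} {J : E → E →L[ℝ] E} {ν τ : E → E}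

lemma bdd_of_cont {F : Type*} [NormedAddCommGroup F] {W : Measure E}
    (h : ∃ R : ℝ, ∀ᵐ x ∂W, ‖x‖ ≤ R) {A : E → F} (hA : Continuous A) :
    ∃ C : ℝ, ∀ᵐ x ∂W, ‖A x‖ ≤ C := by
  obtain ⟨R, hR⟩ := h
  obtain ⟨C, hC⟩ := (isCompact_closedBall (0 : E) R).exists_bound_of_continuousOn hA.continuousOn
  refine ⟨C, ?_⟩
  filter_upwards [hR] with x hx
  exact hC x (mem_closedBall_zero_iff.2 hx)

lemma OrStat.int_dv [IsFiniteMeasure V] (h : OrStat V S J ν τ) {A : E → (E →L[ℝ] E)}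
    (hA : Continuous A) : Integrable (fun x => dv (J x) (A x)) V := by
  obtain ⟨C, hC⟩ := bdd_of_cont h.bddV hA
  refine Integrable.of_bound (C := 2 * C)
    (continuous_dv.comp_aestronglyMeasurable (h.measJ.prodMk hA.aestronglyMeasurable)) ?_
  filter_upwards [hC, h.rot] with x hx hJ
  rw [Real.norm_eq_abs]
  have := abs_dv_le hJ (A x)
  linarith

lemma OrStat.int_cu [IsFiniteMeasure V] (h : OrStat V S J ν τ) {A : E → (E →L[ℝ] E)}
    (hA : Continuous A) : Integrable (fun x => cu (J x) (A x)) V := by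
  obtain ⟨C, hC⟩ := bdd_of_cont h.bddV hA
  refine Integrable.of_bound (C := 2 * C)
    (continuous_cu.comp_aestronglyMeasurable (h.measJ.prodMk hA.aestronglyMeasurable)) ?_
  filter_upwards [hC, h.rot] with x hx hJ
  rw [Real.norm_eq_abs]
  have := abs_cu_le hJ (A x)
  linarith

lemma OrStat.int_ν [IsFiniteMeasure S] (h : OrStat V S J ν τ) {X : E → E}
    (hX : Continuous X) : Integrable (fun x => ⟪X x, ν x⟫) S := by
  obtain ⟨C, hC⟩ := bdd_of_cont h.bddS hX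
  refine Integrable.of_bound (C := C) (hX.aestronglyMeasurable.inner h.measν) ?_
  filter_upwards [hC, h.frame] with x hx hf
  calc ‖⟪X x, ν x⟫‖ ≤ ‖X x‖ * ‖ν x‖ := norm_inner_le_norm _ _
    _ = ‖X x‖ := by rw [norm_eq_one_of hf.1, mul_one]
    _ ≤ C := hx

lemma OrStat.int_τ [IsFiniteMeasure S] (h : OrStat V S J ν τ) {X : E → E}
    (hX : Continuous X) : Integrable (fun x => ⟪X x, τ x⟫) S := by
  obtain ⟨C, hC⟩ := bdd_of_cont h.bddS hX
  refine Integrable.of_bound (C := C) (hX.aestronglyMeasurable.inner h.measτ) ?_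
  filter_upwards [hC, h.frame] with x hx hf
  calc ‖⟪X x, τ x⟫‖ ≤ ‖X x‖ * ‖τ x‖ := norm_inner_le_norm _ _
    _ = ‖X x‖ := by rw [norm_eq_one_of hf.2.1, mul_one]
    _ ≤ C := hx

/-- the mixed kernel -/
noncomputable def KK (ε : ℝ) (J : E → E →L[ℝ] E) (ν τ : E → E) (y x : E) : ℝ :=
  1 / 2 * (⟪X1 ε y x, ν x⟫ + ⟪J y (X1 ε y x), τ x⟫)

lemma norm_W_eq {ε : ℝ} (hε : 0 < ε) (x y n : E) :
    (√(‖y - x‖ ^ 2 + ε ^ 2))⁻¹ * ⟪W ε x y, n⟫ = -⟪X1 ε y x, n⟫ := by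
  have hq := q_pos hε (y - x)
  have h1 : (√(‖y - x‖ ^ 2 + ε ^ 2))⁻¹ * (√(‖y - x‖ ^ 2 + ε ^ 2))⁻¹ = (‖y - x‖ ^ 2 + ε ^ 2)⁻¹ := by
    rw [← mul_inv, Real.mul_self_sqrt hq.le]
  rw [W, X1, inner_smul_left, inner_smul_left, RCLike.conj_to_real, RCLike.conj_to_real,
    ← mul_assoc, h1, norm_sub_rev, ← neg_sub y x, inner_neg_left]
  ring

lemma abs_KK_le {ε : ℝ} (hε : 0 < ε) {x y : E} (hn : ⟪ν x, ν x⟫ = 1) (hm : ⟪τ x, τ x⟫ = 1)
    (hy : IsPlaneRot (J y)) : |KK ε J ν τ y x| ≤ 1 / ε := by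
  have b1 := norm_X1_le hε y x
  have b2 : |⟪X1 ε y x, ν x⟫| ≤ 1 / ε := by
    calc _ ≤ ‖X1 ε y x‖ * ‖ν x‖ := abs_real_inner_le_norm _ _
      _ = ‖X1 ε y x‖ := by rw [norm_eq_one_of hn, mul_one]
      _ ≤ _ := b1
  have b3 : |⟪J y (X1 ε y x), τ x⟫| ≤ 1 / ε := by
    calc _ ≤ ‖J y (X1 ε y x)‖ * ‖τ x‖ := abs_real_inner_le_norm _ _
      _ = ‖J y (X1 ε y x)‖ := by rw [norm_eq_one_of hm, mul_one]
      _ ≤ ‖J y‖ * ‖X1 ε y x‖ := (J y).le_opNorm _
      _ ≤ 1 * (1 / ε) := by gcongr; exact hy.norm_le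
      _ = 1 / ε := one_mul _
  rw [KK, abs_mul, abs_of_pos (by norm_num : (0:ℝ) < 1 / 2)]
  have := abs_add_le ⟪X1 ε y x, ν x⟫ ⟪J y (X1 ε y x), τ x⟫
  linarith

lemma continuous_apply_pair : Continuous (fun p : (E →L[ℝ] E) × E => p.1 p.2) :=
  isBoundedBilinearMap_apply.continuous

lemma OrStat.int_KK_left [IsFiniteMeasure V] (h : OrStat V S J ν τ) {ε : ℝ} (hε : 0 < ε) {x : E}
    (hn : ⟪ν x, ν x⟫ = 1) (hm : ⟪τ x, τ x⟫ = 1) : Integrable (fun y => KK ε J ν τ y x) V := by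
  have hX : Continuous (fun y => X1 ε y x) :=
    (continuous_X1_joint (E := E) hε).comp (Continuous.prodMk continuous_id continuous_const)
  refine Integrable.of_bound (C := 1 / ε) ?_ ?_
  · unfold KK
    apply AEStronglyMeasurable.const_mul
    apply AEStronglyMeasurable.add
    · exact (hX.inner continuous_const).aestronglyMeasurable
    · have := continuous_apply_pair.comp_aestronglyMeasurable
        (h.measJ.prodMk hX.aestronglyMeasurable)
      exact this.inner aestronglyMeasurable_const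
  · filter_upwards [h.rot] with y hy
    exact abs_KK_le hε hn hm hy

/-- step A: the certificate inequality, integrated over the surface -/
lemma OrStat.stepA [IsFiniteMeasure V] [IsFiniteMeasure S] (h : OrStat V S J ν τ) {ε : ℝ}
    (hε : 0 < ε) : ∀ᵐ x ∂S, ∫ y, KK ε J ν τ y x ∂V ≤ 1 / 2 * S.real Set.univ := by
  filter_upwards [h.frame] with x hx
  obtain ⟨hn, hm, hnm⟩ := hx
  have hn' : ⟪-ν x, -ν x⟫ = 1 := by rw [inner_neg_neg]; exact hn
  have hm' : ⟪-τ x, -τ x⟫ = 1 := by rw [inner_neg_neg]; exact hm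
  have hnm' : ⟪-ν x, -τ x⟫ = 0 := by rw [inner_neg_neg]; exact hnm
  have hU := contDiff_UF hε x (-ν x) (-τ x)
  have hV := contDiff_VF hε x (-ν x) (-τ x)
  have hUc : Continuous (fderiv ℝ (UF ε x (-ν x) (-τ x))) := hU.continuous_fderiv (by norm_num)
  have hVc : Continuous (fderiv ℝ (VF ε x (-ν x) (-τ x))) := hV.continuous_fderiv (by norm_num)
  have i1 := h.int_dv hUc
  have i2 := h.int_cu hVc
  have i3 := h.int_ν hU.continuous
  have i4 := h.int_τ hV.continuous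
  -- the interior
  have h1 : ∫ y, KK ε J ν τ y x ∂V ≤ ∫ y, (dv (J y) (fderiv ℝ (UF ε x (-ν x) (-τ x)) y) -
      cu (J y) (fderiv ℝ (VF ε x (-ν x) (-τ x)) y)) ∂V := by
    apply integral_mono_ae (h.int_KK_left hε hn hm) (i1.sub i2)
    filter_upwards [h.rot] with y hy
    obtain ⟨q₁, q₂, h11, h22, h12, hJ⟩ := hy
    have hp := plane_bound hε (x := x) y hn' hm' hnm' h11 h22 h12
    rw [Pi.sub_apply, dv_eq h11 h22 h12 hJ, cu_eq hJ]
    refine le_trans (le_of_eq ?_) hp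
    have e1 := norm_W_eq hε x y (-ν x)
    have e2 := norm_W_eq hε x y q₁
    have e3 := norm_W_eq hε x y q₂
    have e5 : ⟪X1 ε y x, -ν x⟫ = -⟪X1 ε y x, ν x⟫ := inner_neg_right _ _
    rw [e5, neg_neg] at e1
    have e4 : (√(‖y - x‖ ^ 2 + ε ^ 2))⁻¹ * (⟪W ε x y, -ν x⟫ +
        (⟪W ε x y, q₁⟫ * ⟪-τ x, q₂⟫ - ⟪W ε x y, q₂⟫ * ⟪-τ x, q₁⟫)) =
        (√(‖y - x‖ ^ 2 + ε ^ 2))⁻¹ * ⟪W ε x y, -ν x⟫ +
        ((√(‖y - x‖ ^ 2 + ε ^ 2))⁻¹ * ⟪W ε x y, q₁⟫ * ⟪-τ x, q₂⟫ -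
        (√(‖y - x‖ ^ 2 + ε ^ 2))⁻¹ * ⟪W ε x y, q₂⟫ * ⟪-τ x, q₁⟫) := by ring
    rw [e4, e2, e3, inner_neg_left (τ x), inner_neg_left (τ x), e1, KK, hJ, inner_sub_left,
      inner_smul_left, inner_smul_left, real_inner_comm (τ x) q₂, real_inner_comm (τ x) q₁,
      real_inner_comm (X1 ε y x) q₁, real_inner_comm (X1 ε y x) q₂]
    simp only [RCLike.conj_to_real]
    ring
  refine le_trans h1 ?_
  rw [integral_sub i1 i2, h.var _ hU, h.sto _ hV, ← integral_sub i3 i4]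
  calc _ ≤ ∫ _, (1 / 2 : ℝ) ∂S := by
        apply integral_mono_ae (i3.sub i4) (integrable_const _)
        filter_upwards [h.frame] with y hy
        obtain ⟨hny, hmy, hnmy⟩ := hy
        have := pair_bound hε (x := x) y hn' hm' hnm' (e₁ := ν y) (e₂ := -τ y) hny
          (by rw [inner_neg_neg]; exact hmy) (by rw [inner_neg_right, hnmy, neg_zero])
        rw [inner_neg_right] at this
        rw [Pi.sub_apply]
        linarith
    _ = 1 / 2 * S.real Set.univ := by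
        rw [integral_const, smul_eq_mul]; ring

lemma OrStat.int_KK [IsFiniteMeasure V] [IsFiniteMeasure S] (h : OrStat V S J ν τ) {ε : ℝ}
    (hε : 0 < ε) : Integrable (Function.uncurry (KK ε J ν τ)) (V.prod S) := by
  have hX : AEStronglyMeasurable (fun p : E × E => X1 ε p.1 p.2) (V.prod S) :=
    (continuous_X1_joint hε).aestronglyMeasurable
  refine Integrable.of_bound (C := 1 / ε) ?_ ?_
  · unfold Function.uncurry KK
    apply AEStronglyMeasurable.const_mul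
    apply AEStronglyMeasurable.add
    · exact hX.inner h.measν.comp_snd
    · have := continuous_apply_pair.comp_aestronglyMeasurable (h.measJ.comp_fst.prodMk hX)
      exact this.inner h.measτ.comp_snd
  · have h1 : ∀ᵐ p : E × E ∂(V.prod S), IsPlaneRot (J p.1) :=
      Measure.quasiMeasurePreserving_fst.ae h.rot
    have h2 : ∀ᵐ p : E × E ∂(V.prod S), ⟪ν p.2, ν p.2⟫ = 1 ∧ ⟪τ p.2, τ p.2⟫ = 1 ∧
        ⟪ν p.2, τ p.2⟫ = 0 := Measure.quasiMeasurePreserving_snd.ae h.frame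
    filter_upwards [h1, h2] with p hp1 hp2
    exact abs_KK_le hε hp2.1 hp2.2.1 hp1

/-- step C: the first variation formula and Stokes' formula for the kernel -/
lemma OrStat.stepC [IsFiniteMeasure V] [IsFiniteMeasure S] (h : OrStat V S J ν τ) {ε : ℝ}
    (hε : 0 < ε) (y : E) :
    ∫ x, KK ε J ν τ y x ∂S = ∫ x, EE (J x) (J y) (AA ε (x - y)) ∂V := by
  have hX := contDiff_X1 hε y (n := 1)
  have hJX : ContDiff ℝ 1 (fun x => J y (X1 ε y x)) := (J y).contDiff.comp hX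
  have hfd : ∀ x, fderiv ℝ (fun x => J y (X1 ε y x)) x = J y ∘L AA ε (x - y) := by
    intro x
    have h1 : HasFDerivAt (X1 ε y) (AA ε (x - y)) x := by
      rw [← fderiv_X1_eq hε]
      exact (hX.differentiable (by norm_num) x).hasFDerivAt
    exact ((J y).hasFDerivAt.comp x h1).fderiv
  have hAc : Continuous (fun x => AA ε (x - y)) := by
    have : (fun x => AA ε (x - y)) = fderiv ℝ (X1 ε y) := by
      funext x; rw [fderiv_X1_eq hε]
    rw [this]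
    exact hX.continuous_fderiv (by norm_num)
  have e1 := h.var _ hX
  have e2 := h.sto _ hJX
  simp only [fderiv_X1_eq hε] at e1
  simp only [hfd] at e2
  have i1 := h.int_ν hX.continuous
  have i2 := h.int_τ hJX.continuous
  have i3 := h.int_dv hAc
  have i4 := h.int_cu (A := fun x => J y ∘L AA ε (x - y)) (continuous_const.clm_comp hAc)
  unfold KK EE
  rw [integral_const_mul, integral_const_mul, integral_add i1 i2, integral_add i3 i4, e1, e2]

lemma continuous_AA {ε : ℝ} (hε : 0 < ε) : Continuous (AA ε : E → E →L[ℝ] E) := by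
  have : (AA ε : E → E →L[ℝ] E) = fderiv ℝ (X1 ε 0) := by
    funext x; rw [fderiv_X1_eq hε, sub_zero]
  rw [this]
  exact (contDiff_X1 hε 0 (n := 1)).continuous_fderiv (by norm_num)

lemma norm_AA_le {ε : ℝ} (hε : 0 < ε) : ∃ C : ℝ, ∀ z : E, ‖AA ε z‖ ≤ C := by
  refine ⟨3 / ε ^ 2, fun z => ?_⟩
  have := norm_fderiv_X1_le hε (0 : E) z
  rw [fderiv_X1_eq hε, sub_zero] at this
  exact this

lemma OrStat.int_EE [IsFiniteMeasure V] (h : OrStat V S J ν τ) {ε : ℝ} (hε : 0 < ε) :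
    Integrable (fun p : E × E => EE (J p.2) (J p.1) (AA ε (p.2 - p.1))) (V.prod V) := by
  obtain ⟨C, hC⟩ := norm_AA_le (E := E) hε
  have hA : AEStronglyMeasurable (fun p : E × E => AA ε (p.2 - p.1)) (V.prod V) :=
    ((continuous_AA hε).comp (continuous_snd.sub continuous_fst)).aestronglyMeasurable
  have hcc : Continuous (fun p : (E →L[ℝ] E) × (E →L[ℝ] E) => p.1 ∘L p.2) :=
    continuous_fst.clm_comp continuous_snd
  refine Integrable.of_bound (C := 1 / 2 * (2 * C + 2 * C)) ?_ ?_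
  · unfold EE
    apply AEStronglyMeasurable.const_mul
    apply AEStronglyMeasurable.add
    · exact continuous_dv.comp_aestronglyMeasurable (h.measJ.comp_snd.prodMk hA)
    · exact continuous_cu.comp_aestronglyMeasurable (h.measJ.comp_snd.prodMk
        (hcc.comp_aestronglyMeasurable (h.measJ.comp_fst.prodMk hA)))
  · have h1 : ∀ᵐ p : E × E ∂(V.prod V), IsPlaneRot (J p.1) :=
      Measure.quasiMeasurePreserving_fst.ae h.rot
    have h2 : ∀ᵐ p : E × E ∂(V.prod V), IsPlaneRot (J p.2) :=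
      Measure.quasiMeasurePreserving_snd.ae h.rot
    filter_upwards [h1, h2] with p hp1 hp2
    have b1 := abs_dv_le hp2 (AA ε (p.2 - p.1))
    have b2 := abs_cu_le hp2 (J p.1 ∘L AA ε (p.2 - p.1))
    have b3 : ‖J p.1 ∘L AA ε (p.2 - p.1)‖ ≤ ‖AA ε (p.2 - p.1)‖ := by
      calc _ ≤ ‖J p.1‖ * ‖AA ε (p.2 - p.1)‖ := ContinuousLinearMap.opNorm_comp_le _ _
        _ ≤ 1 * ‖AA ε (p.2 - p.1)‖ := by gcongr; exact hp1.norm_le
        _ = _ := one_mul _
    have b4 := hC (p.2 - p.1)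
    rw [EE, Real.norm_eq_abs, abs_mul, abs_of_pos (by norm_num : (0:ℝ) < 1 / 2)]
    have := abs_add_le (dv (J p.2) (AA ε (p.2 - p.1))) (cu (J p.2) (J p.1 ∘L AA ε (p.2 - p.1)))
    gcongr
    linarith

/-- the symmetrised kernel -/
noncomputable def FF (ε : ℝ) (J : E → E →L[ℝ] E) (y x : E) : ℝ :=
  1 / 2 * (-LinearMap.trace ℝ E
    (((J x + J y) ∘L (J x + J y) ∘L AA ε (x - y) : E →L[ℝ] E) : E →ₗ[ℝ] E))

lemma FF_eq (ε : ℝ) (J : E → E →L[ℝ] E) (y x : E) :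
    FF ε J y x = EE (J x) (J y) (AA ε (x - y)) + EE (J y) (J x) (AA ε (y - x)) := by
  rw [← neg_sub x y, AA_neg, EE_symm, FF]

lemma OrStat.int_FF [IsFiniteMeasure V] (h : OrStat V S J ν τ) {ε : ℝ} (hε : 0 < ε) :
    Integrable (fun p : E × E => FF ε J p.1 p.2) (V.prod V) := by
  simp only [FF_eq]
  exact (h.int_EE hε).add (h.int_EE hε).swap

/-- the inequality at scale `ε` -/
theorem OrStat.scale [IsFiniteMeasure V] [IsFiniteMeasure S] (h : OrStat V S J ν τ) {ε : ℝ}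
    (hε : 0 < ε) : ∫ y, ∫ x, FF ε J y x ∂V ∂V ≤ (S.real Set.univ) ^ 2 := by
  have hE := h.int_EE hε
  have hE' : Integrable (fun p : E × E => EE (J p.1) (J p.2) (AA ε (p.1 - p.2))) (V.prod V) :=
    hE.swap
  have hK := h.int_KK hε
  have h1 : ∫ y, ∫ x, EE (J x) (J y) (AA ε (x - y)) ∂V ∂V ≤ 1 / 2 * (S.real Set.univ) ^ 2 := by
    calc ∫ y, ∫ x, EE (J x) (J y) (AA ε (x - y)) ∂V ∂V = ∫ y, ∫ x, KK ε J ν τ y x ∂S ∂V := by
          congr 1; funext y; exact (h.stepC hε y).symm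
      _ = ∫ x, ∫ y, KK ε J ν τ y x ∂V ∂S := integral_integral_swap hK
      _ ≤ ∫ _, 1 / 2 * S.real Set.univ ∂S :=
          integral_mono_ae hK.integral_prod_right (integrable_const _) (h.stepA hε)
      _ = 1 / 2 * (S.real Set.univ) ^ 2 := by
          rw [integral_const, smul_eq_mul]; ring
  have h2 : ∫ y, ∫ x, EE (J y) (J x) (AA ε (y - x)) ∂V ∂V =
      ∫ y, ∫ x, EE (J x) (J y) (AA ε (x - y)) ∂V ∂V := by
    rw [integral_integral_swap]
    exact hE'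
  have h3 : ∫ y, ∫ x, FF ε J y x ∂V ∂V = ∫ y, ∫ x, EE (J x) (J y) (AA ε (x - y)) ∂V ∂V +
      ∫ y, ∫ x, EE (J y) (J x) (AA ε (y - x)) ∂V ∂V := by
    have e1 : ∫ y, ∫ x, FF ε J y x ∂V ∂V = ∫ p : E × E, FF ε J p.1 p.2 ∂(V.prod V) :=
      (integral_prod _ (h.int_FF hε)).symm
    have e2 : ∫ y, ∫ x, EE (J x) (J y) (AA ε (x - y)) ∂V ∂V =
        ∫ p : E × E, EE (J p.2) (J p.1) (AA ε (p.2 - p.1)) ∂(V.prod V) :=
      (integral_prod _ hE).symm
    have e3 : ∫ y, ∫ x, EE (J y) (J x) (AA ε (y - x)) ∂V ∂V =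
        ∫ p : E × E, EE (J p.1) (J p.2) (AA ε (p.1 - p.2)) ∂(V.prod V) :=
      (integral_prod _ hE').symm
    rw [e1, e2, e3, ← integral_add hE hE']
    congr 1
    funext p
    rw [FF_eq]
  rw [h3, h2]
  linarith

end Pool.Agent.Helper74.Iso2
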