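import Mathlib
import Pool.Agent.Helper74.Iso.Limit
import Pool.Agent.Helper74.Iso2.Core2

/-!
# The sharp isoperimetric inequality for oriented stationary measures with density at least one
-/

set_option linter.unusedSectionVars false

namespace Pool.Agent.Helper74.Iso2

open RealInnerProductSpace InnerProductSpace Module MeasureTheory Set Filter Topology
open Pool.Agent.Helper74.Iso
open scoped ContDiff ENNReal

variable {E : Type*} [NormedAddCommGroup E] [InnerProductSpace ℝ E] [FiniteDimensional ℝ E]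
  [MeasurableSpace E] [BorelSpace E]

lemma skew_add {A B : E →L[ℝ] E} (hA : IsPlaneRot A) (hB : IsPlaneRot B) (u v : E) :
    ⟪(A + B) u, v⟫ = -⟪u, (A + B) v⟫ := by
  rw [add_apply, add_apply, inner_add_left, inner_add_right, hA.skew, hB.skew]
  ring

lemma FF_ge {ε : ℝ} (hε : 0 < ε) {J : E → E →L[ℝ] E} {x y : E} (hx : IsPlaneRot (J x))
    (hy : IsPlaneRot (J y)) : hs (J x + J y) / 4 * ker ε x y ≤ FF ε J y x := by
  have h := sym_ge hε (skew_add hx hy) (x - y)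
  unfold FF Iso.ker
  calc hs (J x + J y) / 4 * (2 * ε ^ 2 / (‖x - y‖ ^ 2 + ε ^ 2) ^ 2)
      = 1 / 2 * (hs (J x + J y) * (ε ^ 2 / (‖x - y‖ ^ 2 + ε ^ 2) ^ 2)) := by ring
    _ ≤ _ := by gcongr

lemma FF_nonneg {ε : ℝ} (hε : 0 < ε) {J : E → E →L[ℝ] E} {x y : E} (hx : IsPlaneRot (J x))
    (hy : IsPlaneRot (J y)) : 0 ≤ FF ε J y x := by
  refine le_trans ?_ (FF_ge hε hx hy)
  have := hs_nonneg (skew_add hx hy)
  have := ker_nonneg ε x y
  positivity

lemma liminf_ge2 {V : Measure E} [IsFiniteMeasure V] {J : E → E →L[ℝ] E}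
    (hJ : ∀ᵐ x ∂V, IsPlaneRot (J x)) {y : E} (hy : IsPlaneRot (J y))
    (h : ∀ δ : ℝ, 0 < δ → δ < 1 → ∀ᶠ r in 𝓝[>] (0 : ℝ),
      ENNReal.ofReal ((1 - δ) * (Real.pi * r ^ 2)) ≤ V (Metric.ball y r))
    (hc : ∀ δ : ℝ, 0 < δ → ∃ ρ : ℝ, 0 < ρ ∧ ∀ᵐ x ∂V, x ∈ Metric.ball y ρ →
      8 * (1 - δ) ≤ hs (J x + J y)) :
    ENNReal.ofReal (4 * Real.pi) ≤
      liminf (fun k : ℕ => ∫⁻ x, ENNReal.ofReal (FF (1 / ((k : ℝ) + 1)) J y x) ∂V) atTop := by
  have key : ∀ δ : ℝ, 0 < δ → δ < 1 → ENNReal.ofReal (2 * (1 - δ) * ((1 - δ) * Real.pi * 2)) ≤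
      liminf (fun k : ℕ => ∫⁻ x, ENNReal.ofReal (FF (1 / ((k : ℝ) + 1)) J y x) ∂V) atTop := by
    intro δ hδ hδ1
    obtain ⟨r₁, hr₁, hr⟩ := (mem_nhdsGT_iff_exists_Ioo_subset).1 (h δ hδ hδ1)
    have hr₁' : 0 < r₁ := hr₁
    obtain ⟨ρ, hρ, hρc⟩ := hc δ hδ
    set r₀ := min r₁ ρ with hr₀
    have hr₀' : 0 < r₀ := lt_min hr₁' hρ
    have h3 : ∀ r ∈ Ioo 0 r₀, ENNReal.ofReal ((1 - δ) * (Real.pi * r ^ 2)) ≤
        (V.restrict (Metric.ball y ρ)) (Metric.ball y r) := by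
      intro r hrr
      rw [Measure.restrict_apply Metric.isOpen_ball.measurableSet,
        inter_eq_left.2 (Metric.ball_subset_ball (le_trans hrr.2.le (min_le_right _ _)))]
      exact hr ⟨hrr.1, lt_of_lt_of_le hrr.2 (min_le_left _ _)⟩
    have h6 : Tendsto (fun k : ℕ => ENNReal.ofReal (2 * (1 - δ) *
        ((1 - δ) * Real.pi * (2 * r₀ ^ 4 / (r₀ ^ 2 + (1 / ((k : ℝ) + 1)) ^ 2) ^ 2))))
        atTop (𝓝 (ENNReal.ofReal (2 * (1 - δ) * ((1 - δ) * Real.pi * 2)))) :=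
      ENNReal.tendsto_ofReal ((tendsto_const_seq hr₀').const_mul _)
    rw [← h6.liminf_eq]
    refine liminf_le_liminf (Eventually.of_forall fun k => ?_)
    have hε : 0 < 1 / ((k : ℝ) + 1) := by positivity
    have h7 := lower_bound (V := V.restrict (Metric.ball y ρ)) hε hδ1.le hr₀' y h3
    have h0 : (0:ℝ) ≤ 2 * (1 - δ) := by linarith
    calc ENNReal.ofReal (2 * (1 - δ) *
          ((1 - δ) * Real.pi * (2 * r₀ ^ 4 / (r₀ ^ 2 + (1 / ((k : ℝ) + 1)) ^ 2) ^ 2)))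
        = ENNReal.ofReal (2 * (1 - δ)) * ENNReal.ofReal
          ((1 - δ) * Real.pi * (2 * r₀ ^ 4 / (r₀ ^ 2 + (1 / ((k : ℝ) + 1)) ^ 2) ^ 2)) :=
          ENNReal.ofReal_mul h0
      _ ≤ ENNReal.ofReal (2 * (1 - δ)) * ∫⁻ x, ENNReal.ofReal (ker (1 / ((k : ℝ) + 1)) x y)
            ∂(V.restrict (Metric.ball y ρ)) := by gcongr
      _ = ∫⁻ x in Metric.ball y ρ, ENNReal.ofReal (2 * (1 - δ) * ker (1 / ((k : ℝ) + 1)) x y)
            ∂V := by
          rw [← lintegral_const_mul]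
          · congr 1
            funext x
            rw [ENNReal.ofReal_mul h0]
          · exact ENNReal.measurable_ofReal.comp
              ((continuous_ker hε).comp (Continuous.prodMk continuous_id continuous_const)).measurable
      _ ≤ ∫⁻ x in Metric.ball y ρ, ENNReal.ofReal (FF (1 / ((k : ℝ) + 1)) J y x) ∂V := by
          apply lintegral_mono_ae
          rw [ae_restrict_iff' Metric.isOpen_ball.measurableSet]
          filter_upwards [hρc, hJ] with x hx hxJ hxb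
          apply ENNReal.ofReal_le_ofReal
          refine le_trans ?_ (FF_ge hε hxJ hy)
          have := hx hxb
          have := ker_nonneg (1 / ((k : ℝ) + 1)) x y
          gcongr
          linarith
      _ ≤ ∫⁻ x, ENNReal.ofReal (FF (1 / ((k : ℝ) + 1)) J y x) ∂V := setLIntegral_le_lintegral _ _
  refine le_of_tendsto_of_tendsto (f := fun k : ℕ => ENNReal.ofReal (2 * (1 - 1 / ((k : ℝ) + 1 + 1)) *
    ((1 - 1 / ((k : ℝ) + 1 + 1)) * Real.pi * 2)))
    (g := fun _ => liminf (fun k : ℕ => ∫⁻ x, ENNReal.ofReal (FF (1 / ((k : ℝ) + 1)) J y x) ∂V) atTop)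
    (b := atTop) ?_ tendsto_const_nhds ?_
  · apply ENNReal.tendsto_ofReal
    have h0 : Tendsto (fun k : ℕ => 1 / ((k : ℝ) + 1 + 1)) atTop (𝓝 0) := by
      have := (tendsto_add_atTop_iff_nat 1).2 (tendsto_one_div_add_atTop_nhds_zero_nat (𝕜 := ℝ))
      simpa using this
    have h1 : Tendsto (fun k : ℕ => 2 * (1 - 1 / ((k : ℝ) + 1 + 1)) *
        ((1 - 1 / ((k : ℝ) + 1 + 1)) * Real.pi * 2)) atTop
        (𝓝 (2 * (1 - 0) * ((1 - 0) * Real.pi * 2))) :=
      ((tendsto_const_nhds.sub h0).const_mul _).mul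
        (((tendsto_const_nhds.sub h0).mul_const _).mul_const _)
    convert h1 using 2
    ring
  · filter_upwards with k
    apply key
    · positivity
    · rw [div_lt_one (by positivity)]
      have : (0:ℝ) ≤ k := Nat.cast_nonneg k
      linarith

theorem main2 {V S : Measure E} [IsFiniteMeasure V] [IsFiniteMeasure S]
    {J : E → E →L[ℝ] E} {ν τ : E → E} (h : OrStat V S J ν τ)
    (hdens : ∀ᵐ y ∂V, ∀ δ : ℝ, 0 < δ → δ < 1 → ∀ᶠ r in 𝓝[>] (0 : ℝ),
      ENNReal.ofReal ((1 - δ) * (Real.pi * r ^ 2)) ≤ V (Metric.ball y r))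
    (hcont : ∀ᵐ y ∂V, ∀ δ : ℝ, 0 < δ → ∃ ρ : ℝ, 0 < ρ ∧ ∀ᵐ x ∂V, x ∈ Metric.ball y ρ →
      8 * (1 - δ) ≤ hs (J x + J y)) :
    4 * Real.pi * V.real univ ≤ (S.real univ) ^ 2 := by
  have h1 : ∀ k : ℕ, ∫⁻ y, ∫⁻ x, ENNReal.ofReal (FF (1 / ((k : ℝ) + 1)) J y x) ∂V ∂V ≤
      ENNReal.ofReal ((S.real univ) ^ 2) := by
    intro k
    have hε : 0 < 1 / ((k : ℝ) + 1) := by positivity
    have hi := h.int_FF hε
    have h2 : ∀ᵐ y ∂V, ∫⁻ x, ENNReal.ofReal (FF (1 / ((k : ℝ) + 1)) J y x) ∂V =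
        ENNReal.ofReal (∫ x, FF (1 / ((k : ℝ) + 1)) J y x ∂V) := by
      filter_upwards [hi.prod_right_ae, h.rot] with y hy hyJ
      rw [ofReal_integral_eq_lintegral_ofReal hy]
      filter_upwards [h.rot] with x hx using FF_nonneg hε hx hyJ
    rw [lintegral_congr_ae h2, ← ofReal_integral_eq_lintegral_ofReal hi.integral_prod_left]
    · exact ENNReal.ofReal_le_ofReal (h.scale hε)
    · filter_upwards [h.rot] with y hyJ
      apply integral_nonneg_of_ae
      filter_upwards [h.rot] with x hx using FF_nonneg hε hx hyJ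
  have h3 : ENNReal.ofReal (4 * Real.pi) * V univ ≤ ENNReal.ofReal ((S.real univ) ^ 2) := by
    calc ENNReal.ofReal (4 * Real.pi) * V univ = ∫⁻ _, ENNReal.ofReal (4 * Real.pi) ∂V := by
          rw [lintegral_const]
      _ ≤ ∫⁻ y, liminf (fun k : ℕ => ∫⁻ x, ENNReal.ofReal (FF (1 / ((k : ℝ) + 1)) J y x) ∂V) atTop
            ∂V := by
          apply lintegral_mono_ae
          filter_upwards [hdens, hcont, h.rot] with y hy hy2 hy3
          exact liminf_ge2 h.rot hy3 hy hy2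
      _ ≤ liminf (fun k : ℕ => ∫⁻ y, ∫⁻ x, ENNReal.ofReal (FF (1 / ((k : ℝ) + 1)) J y x) ∂V ∂V)
            atTop := by
          apply lintegral_liminf_le'
          intro k
          have hε : 0 < 1 / ((k : ℝ) + 1) := by positivity
          apply AEMeasurable.lintegral_prod_right'
            (f := fun p : E × E => ENNReal.ofReal (FF (1 / ((k : ℝ) + 1)) J p.1 p.2))
          exact ENNReal.measurable_ofReal.comp_aemeasurable
            (h.int_FF hε).aestronglyMeasurable.aemeasurable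
      _ ≤ _ := by
          refine le_trans (liminf_le_liminf (Eventually.of_forall h1)) ?_
          simp
  have h4 : ENNReal.ofReal (4 * Real.pi) * V univ = ENNReal.ofReal (4 * Real.pi * V.real univ) := by
    rw [ENNReal.ofReal_mul (p := 4 * Real.pi) (by positivity), Measure.real,
      ENNReal.ofReal_toReal (measure_ne_top _ _)]
  rwa [h4, ENNReal.ofReal_le_ofReal_iff (by positivity)] at h3

end Pool.Agent.Helper74.Iso2
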