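import Mathlib
import Pool.Agent.Helper74.Iso.Final
import Pool.Agent.Helper74.Iso2.Defs2
import Pool.Agent.Helper74.Iso2.Limit2

/-!
# The sharp isoperimetric inequality for compact oriented stationary surfaces
-/

set_option linter.unusedSectionVars false

namespace Pool.Agent.Helper74.Iso2

open InnerProductSpace Module MeasureTheory Set Filter Topology Pool.Agent.Helper74.Iso
open scoped ContDiff ENNReal NNReal

variable {E : Type*} [NormedAddCommGroup E] [InnerProductSpace ℝ E] [FiniteDimensional ℝ E]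

lemma IsRotationOf.exists_frame {J : E →L[ℝ] E} {T : Submodule ℝ E} (h : IsRotationOf J T)
    (hT : finrank ℝ T = 2) : ∃ q₁ q₂ : E, ⟪q₁, q₁⟫_ℝ = 1 ∧ ⟪q₂, q₂⟫_ℝ = 1 ∧ ⟪q₁, q₂⟫_ℝ = 0 ∧
      ∀ v, J v = ⟪q₁, v⟫_ℝ • q₂ - ⟪q₂, v⟫_ℝ • q₁ := by
  obtain ⟨hsk, hJJ⟩ := h
  have hJJ' : ∀ v, J (J v) = -T.starProjection v := by
    intro v
    have := congrArg (fun L : E →L[ℝ] E => L v) hJJ
    exact this
  -- the projection commutes with J and J vanishes on the complement
  have hnontriv : Nontrivial T := Module.nontrivial_of_finrank_pos (R := ℝ) (by rw [hT]; norm_num)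
  obtain ⟨⟨q, hqT⟩, hq0⟩ := exists_ne (0 : T)
  have hq0' : q ≠ 0 := fun h0 => hq0 (by ext; exact h0)
  obtain ⟨q₁, hq₁T, hq₁⟩ : ∃ q₁ ∈ T, ⟪q₁, q₁⟫_ℝ = 1 := by
    refine ⟨‖q‖⁻¹ • q, T.smul_mem _ hqT, ?_⟩
    have : ‖q‖ ≠ 0 := norm_ne_zero_iff.2 hq0'
    rw [inner_smul_left, inner_smul_right, real_inner_self_eq_norm_sq, RCLike.conj_to_real]
    field_simp
  have hPq₁ : T.starProjection q₁ = q₁ := Submodule.starProjection_eq_self_iff.2 hq₁T
  have hq₂ : ⟪J q₁, J q₁⟫_ℝ = 1 := by
    rw [hsk, hJJ', hPq₁, inner_neg_right, neg_neg, hq₁]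
  have h12 : ⟪q₁, J q₁⟫_ℝ = 0 := by
    have h1 := hsk q₁ q₁
    have h2 : ⟪J q₁, q₁⟫_ℝ = ⟪q₁, J q₁⟫_ℝ := real_inner_comm _ _
    linarith
  have hPJ : ∀ v, T.starProjection (J v) = J (T.starProjection v) := by
    intro v
    have h1 := hJJ' (J v)
    have h2 := congrArg J (hJJ' v)
    rw [map_neg] at h2
    rw [h1] at h2
    exact neg_injective h2
  have hq₂T : J q₁ ∈ T := by
    rw [← Submodule.starProjection_eq_self_iff, hPJ, hPq₁]
  -- every vector of T is a combination of q₁ and J q₁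
  have hspan : ∀ v ∈ T, v = ⟪q₁, v⟫_ℝ • q₁ + ⟪J q₁, v⟫_ℝ • J q₁ := by
    have hon : Orthonormal ℝ (![(⟨q₁, hq₁T⟩ : T), ⟨J q₁, hq₂T⟩]) := by
      rw [orthonormal_iff_ite]
      intro i j
      fin_cases i <;> fin_cases j
      · simpa using hq₁
      · simpa using h12
      · have : ⟪J q₁, q₁⟫_ℝ = 0 := by rw [real_inner_comm]; exact h12
        simpa using this
      · simpa using hq₂
    let b : OrthonormalBasis (Fin 2) ℝ T := by
      refine OrthonormalBasis.mk hon ?_
      have hli := hon.linearIndependent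
      have := hli.span_eq_top_of_card_eq_finrank (by simp [hT])
      rw [this]
    intro v hv
    have h1 := b.sum_repr ⟨v, hv⟩
    rw [Fin.sum_univ_two, OrthonormalBasis.repr_apply_apply, OrthonormalBasis.repr_apply_apply]
      at h1
    have h2 := congrArg (Subtype.val : T → E) h1
    simp only [b, OrthonormalBasis.coe_mk] at h2
    exact h2.symm
  refine ⟨q₁, J q₁, hq₁, hq₂, h12, fun v => ?_⟩
  have hJT : J v ∈ T := by
    -- J v = J (P v) since J vanishes on the complement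
    rw [← Submodule.starProjection_eq_self_iff, hPJ]
    have h3 : ⟪J (v - T.starProjection v), J (v - T.starProjection v)⟫_ℝ = 0 := by
      rw [hsk, hJJ', inner_neg_right, neg_neg, map_sub,
        Submodule.starProjection_eq_self_iff.2 (Submodule.starProjection_apply_mem T v), sub_self,
        inner_zero_right]
    have h4 := inner_self_eq_zero.1 h3
    rw [map_sub, sub_eq_zero] at h4
    exact h4.symm
  have h1 := hspan (J v) hJT
  have h2 : ⟪q₁, J v⟫_ℝ = -⟪J q₁, v⟫_ℝ := by rw [hsk q₁ v, neg_neg]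
  have h3 : ⟪J q₁, J v⟫_ℝ = ⟪q₁, v⟫_ℝ := by
    rw [hsk, hJJ', inner_neg_right, neg_neg, ← Submodule.inner_starProjection_left_eq_right, hPq₁]
  rw [h2, h3] at h1
  rw [h1]
  module

lemma IsRotationOf.isPlaneRot {J : E →L[ℝ] E} {T : Submodule ℝ E} (h : IsRotationOf J T)
    (hT : finrank ℝ T = 2) : IsPlaneRot J := h.exists_frame hT

lemma IsRotationOf.dv_eq_tdiv {J : E →L[ℝ] E} {T : Submodule ℝ E} (h : IsRotationOf J T)
    (A : E →L[ℝ] E) : dv J A = tdiv T A := by
  have h1 : J ∘L J ∘L A = -(T.starProjection ∘L A) := by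
    rw [← ContinuousLinearMap.comp_assoc, h.2, ContinuousLinearMap.neg_comp]
  rw [dv, h1, ContinuousLinearMap.toLinearMap_neg, map_neg, neg_neg, tdiv]

lemma continuous_hs : Continuous (hs : (E →L[ℝ] E) → ℝ) := by
  unfold hs
  have hc : Continuous (fun B : E →L[ℝ] E => LinearMap.trace ℝ E (B : E →ₗ[ℝ] E)) :=
    LinearMap.continuous_of_finiteDimensional
      ((LinearMap.trace ℝ E).comp (ContinuousLinearMap.coeLM ℝ : (E →L[ℝ] E) →ₗ[ℝ] (E →ₗ[ℝ] E)))
  exact (hc.comp (continuous_id.clm_comp continuous_id)).neg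

variable [MeasurableSpace E] [BorelSpace E]

theorem surface_main2 {M B : Set E} (h : IsCompactSurfaceWithBoundary M B) {J : E → E →L[ℝ] E}
    (hJ : IsOrientation M J) {η : E → E}
    (hη : AEStronglyMeasurable η (μHE[1].restrict B))
    (hη1 : ∀ x ∈ B, ‖η x‖ = 1 ∧ η x ∈ tangentPlane M x)
    (hvar : ∀ X : E → E, ContDiff ℝ 1 X →
      ∫ x in M, tdiv (tangentPlane M x) (fderiv ℝ X x) ∂μHE[2] = ∫ x in B, ⟪X x, η x⟫_ℝ ∂μHE[1])
    (hsto : ∀ X : E → E, ContDiff ℝ 1 X →
      ∫ x in M, cu (J x) (fderiv ℝ X x) ∂μHE[2] = ∫ x in B, ⟪X x, J x (η x)⟫_ℝ ∂μHE[1]) :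
    ENNReal.ofReal (4 * Real.pi) * μHE[2] M ≤ (μHE[1] B) ^ 2 := by
  by_cases hB : μHE[1] B = ⊤
  · rw [hB]; simp
  have hB2 : μHE[2] B = 0 := by
    rcases Measure.euclideanHausdorffMeasure_zero_or_top (show 1 < 2 by norm_num) B with h0 | h0
    · exact h0
    · exact absurd h0 hB
  have hM : μHE[2] M < ⊤ := area_lt_top h
  have : IsFiniteMeasure (μHE[2].restrict M) := ⟨by simpa using hM⟩
  have : IsFiniteMeasure (μHE[1].restrict B) := ⟨by simpa using lt_top_iff_ne_top.2 hB⟩
  have hMm : MeasurableSet M := h.isCompact.measurableSet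
  have hBm : MeasurableSet B := h.isClosed_boundary.measurableSet
  have hae : ∀ᵐ x ∂(μHE[2].restrict M), x ∈ M \ B := by
    rw [ae_restrict_iff' hMm]
    have : ∀ᵐ x ∂(μHE[2] : Measure E), x ∉ B := measure_eq_zero_iff_ae_notMem.1 hB2
    filter_upwards [this] with x hx hxM
    exact ⟨hxM, hx⟩
  have hrk : ∀ x ∈ M \ B, finrank ℝ (tangentPlane M x) = 2 := by
    intro x hx
    obtain ⟨Φ, K, h1, h2, hpS, hK, hMK⟩ := h.interior_point x hx
    rw [finrank_tangentPlane h1 h2 hMK hpS hx.1, hK]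
  have hJm : AEStronglyMeasurable J (μHE[2].restrict M) := hJ.1.aestronglyMeasurable hMm
  have hJm1 : AEStronglyMeasurable J (μHE[1].restrict B) :=
    (hJ.1.mono h.boundary_subset).aestronglyMeasurable hBm
  obtain ⟨R, hR⟩ := h.isCompact.isBounded.exists_norm_le
  have hst : OrStat (μHE[2].restrict M) (μHE[1].restrict B) J η (fun x => J x (η x)) := by
    refine ⟨⟨R, ?_⟩, ⟨R, ?_⟩, ?_, hJm, ?_, hη, ?_, ?_, hsto⟩
    · filter_upwards [ae_restrict_mem hMm] with x hx using hR x hx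
    · filter_upwards [ae_restrict_mem hBm] with x hx using hR x (h.boundary_subset hx)
    · filter_upwards [hae] with x hx
      exact (hJ.2 x hx.1).isPlaneRot (hrk x hx)
    · filter_upwards [ae_restrict_mem hBm] with x hx
      obtain ⟨h1, h2⟩ := hη1 x hx
      obtain ⟨hsk, hJJ⟩ := hJ.2 x (h.boundary_subset hx)
      have h3 : ⟪η x, η x⟫_ℝ = 1 := by rw [real_inner_self_eq_norm_sq, h1]; norm_num
      refine ⟨h3, ?_, ?_⟩
      · have h4 : J x (J x (η x)) = -(tangentPlane M x).starProjection (η x) :=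
          congrArg (fun L : E →L[ℝ] E => L (η x)) hJJ
        rw [hsk, h4, Submodule.starProjection_eq_self_iff.2 h2, inner_neg_right, neg_neg, h3]
      · have h5 := hsk (η x) (η x)
        have h6 : ⟪J x (η x), η x⟫_ℝ = ⟪η x, J x (η x)⟫_ℝ := real_inner_comm _ _
        linarith
    · exact continuous_apply_pair.comp_aestronglyMeasurable (hJm1.prodMk hη)
    · intro X hX
      rw [← hvar X hX]
      apply integral_congr_ae
      filter_upwards [ae_restrict_mem hMm] with x hx
      exact (hJ.2 x hx).dv_eq_tdiv _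
  have key := main2 hst ?_ ?_
  · have h1 : (μHE[2].restrict M).real univ = (μHE[2] M).toReal := by simp [Measure.real]
    have h2 : (μHE[1].restrict B).real univ = (μHE[1] B).toReal := by simp [Measure.real]
    rw [h1, h2] at key
    have h3 : μHE[2] M = ENNReal.ofReal (μHE[2] M).toReal := (ENNReal.ofReal_toReal hM.ne).symm
    have h4 : μHE[1] B = ENNReal.ofReal (μHE[1] B).toReal := (ENNReal.ofReal_toReal hB).symm
    rw [h3, h4, ← ENNReal.ofReal_mul (by positivity), ← ENNReal.ofReal_pow ENNReal.toReal_nonneg]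
    exact ENNReal.ofReal_le_ofReal key
  · filter_upwards [hae] with x hx δ hδ hδ1
    obtain ⟨Φ, K, h1, h2, hpS, hK, hMK⟩ := h.interior_point x hx
    filter_upwards [density_ge h1 h2 hK hMK hpS hx.1 hδ hδ1] with r hr
    rwa [Measure.restrict_apply Metric.isOpen_ball.measurableSet, inter_comm]
  · filter_upwards [hae] with y hy δ hδ
    have hyM : y ∈ M := hy.1
    have hc : ContinuousWithinAt (fun x => hs (J x + J y)) M y := by
      have h1 : ContinuousWithinAt J M y := hJ.1 y hyM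
      exact continuous_hs.continuousAt.comp_continuousWithinAt (h1.add continuousWithinAt_const)
    have hv : hs (J y + J y) = 8 := by
      have h1 := ((hJ.2 y hyM).isPlaneRot (hrk y hy)).hs_eq
      have h2 : (J y + J y) ∘L (J y + J y) = (4 : ℝ) • (J y ∘L J y) := by
        ext v
        simp only [ContinuousLinearMap.comp_apply, add_apply, map_add, smul_apply]
        module
      unfold hs at h1 ⊢
      rw [h2, ContinuousLinearMap.toLinearMap_smul, map_smul, smul_eq_mul]
      linarith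
    have hlt : 8 * (1 - δ) < hs (J y + J y) := by rw [hv]; linarith
    have hev := hc.eventually (lt_mem_nhds hlt)
    obtain ⟨ρ, hρ, hsub⟩ := Metric.mem_nhdsWithin_iff.1 hev
    refine ⟨ρ, hρ, ?_⟩
    filter_upwards [ae_restrict_mem hMm] with x hx hxb
    exact le_of_lt (hsub ⟨hxb, hx⟩)

end Pool.Agent.Helper74.Iso2
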